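import Pool.Agent.R967.PR.Gauss2

set_option autoImplicit false

open MeasureTheory ProbabilityTheory Set Filter Topology
open scoped ENNReal NNReal RealInnerProductSpace

namespace R967.PR

variable {E : Type*} [NormedAddCommGroup E] [InnerProductSpace ℝ E] [FiniteDimensional ℝ E]
  [MeasurableSpace E] [BorelSpace E]
variable {J : Type*} [Fintype J] [DecidableEq J]

/-- The distance of `x` to the span of the `b j`, `j ∈ T` (as an infimum over rational
coefficients, so that it is visibly measurable). -/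
noncomputable def Dst (x : E) (b : J → E) (T : Finset J) : ℝ≥0∞ :=
  ⨅ c : J → ℚ, ‖x - ∑ j ∈ T, ((c j : ℚ) : ℝ) • b j‖ₑ

omit [FiniteDimensional ℝ E] [MeasurableSpace E] [BorelSpace E] [DecidableEq J] in
lemma Dst_le (x : E) (b : J → E) (T : Finset J) (c : J → ℝ) :
    Dst x b T ≤ ‖x - ∑ j ∈ T, c j • b j‖ₑ := by
  have hcont : Continuous fun c : J → ℝ => ‖x - ∑ j ∈ T, c j • b j‖ₑ := by
    fun_prop
  have hd : DenseRange (Pi.map (fun (_ : J) (q : ℚ) => (q : ℝ))) :=
    DenseRange.piMap fun _ => Rat.denseRange_cast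
  have hcl : IsClosed {c : J → ℝ | Dst x b T ≤ ‖x - ∑ j ∈ T, c j • b j‖ₑ} :=
    isClosed_le continuous_const hcont
  have := hd.induction_on (p := fun c : J → ℝ => Dst x b T ≤ ‖x - ∑ j ∈ T, c j • b j‖ₑ) c hcl
    (fun q => iInf_le (fun c : J → ℚ => ‖x - ∑ j ∈ T, ((c j : ℚ) : ℝ) • b j‖ₑ) q)
  exact this

omit [FiniteDimensional ℝ E] [MeasurableSpace E] [BorelSpace E] [Fintype J] [DecidableEq J] in
lemma le_Dst (x : E) (b : J → E) (T : Finset J) (n : E) (hn : ‖n‖ = 1)
    (h : ∀ j ∈ T, ⟪b j, n⟫ = 0) : ‖⟪x, n⟫‖ₑ ≤ Dst x b T := by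
  apply le_iInf
  intro c
  have e : ⟪x, n⟫ = ⟪x - ∑ j ∈ T, ((c j : ℚ) : ℝ) • b j, n⟫ := by
    rw [inner_sub_left, sum_inner, Finset.sum_eq_zero, sub_zero]
    intro j hj
    rw [real_inner_smul_left, h j hj, mul_zero]
  rw [e, ← ofReal_norm, ← ofReal_norm]
  apply ENNReal.ofReal_le_ofReal
  refine (norm_inner_le_norm _ _).trans ?_
  rw [hn, mul_one]

omit [FiniteDimensional ℝ E] [MeasurableSpace E] [BorelSpace E] [Fintype J] in
lemma Dst_update (x : E) (b : J → E) (T : Finset J) (i : J) (hi : i ∉ T) (y : E) :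
    Dst x (Function.update b i y) T = Dst x b T := by
  unfold Dst
  congr 1
  funext c
  rw [Finset.sum_congr rfl]
  intro j hj
  rw [Function.update_of_ne (ne_of_mem_of_not_mem hj hi)]

lemma measurable_Dst (T : Finset J) : Measurable fun p : E × (J → E) => Dst p.1 p.2 T := by
  unfold Dst
  apply Measurable.iInf
  intro c
  fun_prop

lemma measurable_Dst' (T : Finset J) (i : J) : Measurable fun b : J → E => Dst (b i) b T :=
  (measurable_Dst T).comp (by fun_prop : Measurable fun b : J → E => (b i, b))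

omit [MeasurableSpace E] [BorelSpace E] [Fintype J] [DecidableEq J] in
lemma exists_normal (b : J → E) (T : Finset J) (hT : T.card < Module.finrank ℝ E) :
    ∃ n : E, ‖n‖ = 1 ∧ ∀ j ∈ T, ⟪b j, n⟫ = 0 := by
  classical
  set V : Submodule ℝ E := Submodule.span ℝ (T.image b : Set E) with hV
  have h1 : Module.finrank ℝ V ≤ T.card :=
    (finrank_span_finset_le_card (T.image b)).trans Finset.card_image_le
  have h2 := Submodule.finrank_add_finrank_orthogonal V
  have h3 : Vᗮ ≠ ⊥ := by
    intro h
    rw [h, finrank_bot] at h2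
    omega
  obtain ⟨w, hw, hw0⟩ := Submodule.exists_mem_ne_zero_of_ne_bot h3
  refine ⟨(‖w‖⁻¹ : ℝ) • w, ?_, ?_⟩
  · rw [norm_smul, norm_inv, norm_norm, inv_mul_cancel₀ (norm_ne_zero_iff.2 hw0)]
  · intro j hj
    rw [real_inner_smul_right, (Submodule.mem_orthogonal V w).1 hw (b j)
      (Submodule.subset_span (by simpa using ⟨j, hj, rfl⟩)), mul_zero]

omit [FiniteDimensional ℝ E] [MeasurableSpace E] [BorelSpace E] in
/-- positivity of the distances gives linear independence -/
lemma indep_of_Dst (b : J → E) (T : Finset J)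
    (h : ∀ i ∈ T, Dst (b i) b (T.erase i) ≠ 0) (c : J → ℝ) (hc : ∑ j ∈ T, c j • b j = 0) :
    ∀ j ∈ T, c j = 0 := by
  by_contra hcon
  push Not at hcon
  obtain ⟨i, hi, hci⟩ := hcon
  apply h i hi
  have h1 := Dst_le (b i) b (T.erase i) (fun j => - (c j / c i))
  have h2 : b i - ∑ j ∈ T.erase i, (-(c j / c i)) • b j = 0 := by
    rw [← Finset.add_sum_erase T _ hi] at hc
    have : (c i)⁻¹ • (c i • b i + ∑ j ∈ T.erase i, c j • b j) = 0 := by rw [hc, smul_zero]
    rw [smul_add, smul_smul, inv_mul_cancel₀ hci, one_smul, Finset.smul_sum] at this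
    rw [sub_eq_add_neg, ← Finset.sum_neg_distrib, ← this]
    congr 1
    apply Finset.sum_congr rfl
    intro j _
    rw [smul_smul, ← neg_smul, neg_neg, div_eq_inv_mul]
  rw [h2, enorm_zero] at h1
  exact le_antisymm h1 bot_le

omit [FiniteDimensional ℝ E] [MeasurableSpace E] [BorelSpace E] in
lemma linInd_of (b : J → E) (T : Finset J)
    (h : ∀ c : J → ℝ, ∑ j ∈ T, c j • b j = 0 → ∀ j ∈ T, c j = 0) :
    LinearIndependent ℝ (fun j : T => b j) := by
  rw [Fintype.linearIndependent_iff]
  intro g hg i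
  have h1 := h (fun j => if hj : j ∈ T then g ⟨j, hj⟩ else 0) (by
    rw [← hg, ← Finset.sum_attach T]
    apply Finset.sum_congr rfl
    intro j _
    simp) i.1 i.2
  simpa using h1

omit [MeasurableSpace E] [BorelSpace E] in
/-- if the `b j` (`j ∈ T`) are independent and span a hyperplane then the distance is given by
the unit normal -/
lemma Dst_eq (x : E) (b : J → E) (T : Finset J)
    (h : ∀ c : J → ℝ, ∑ j ∈ T, c j • b j = 0 → ∀ j ∈ T, c j = 0)
    (hT : T.card + 1 = Module.finrank ℝ E) (n : E) (hn : ‖n‖ = 1)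
    (hb : ∀ j ∈ T, ⟪b j, n⟫ = 0) : Dst x b T ≤ ‖⟪x, n⟫‖ₑ := by
  have hn0 : n ≠ 0 := by
    intro h0; rw [h0, norm_zero] at hn; exact zero_ne_one hn
  set V : Submodule ℝ E := Submodule.span ℝ (b '' (T : Set J)) with hV
  have hVn : V = (ℝ ∙ n)ᗮ := by
    apply Submodule.eq_of_le_of_finrank_eq
    · rw [hV, Submodule.span_le]
      rintro _ ⟨j, hj, rfl⟩
      rw [SetLike.mem_coe, Submodule.mem_orthogonal_singleton_iff_inner_left]
      exact hb j hj
    · have h1 : Module.finrank ℝ V = T.card := by
        have h2 := finrank_span_eq_card (linInd_of b T h)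
        rw [Fintype.card_coe] at h2
        have h5 : Set.range (fun j : T => b j) = b '' (T : Set J) := by
          ext y; simp
        rw [h5] at h2
        rw [hV, h2]
      have h3 := Submodule.finrank_add_finrank_orthogonal (ℝ ∙ n)
      rw [finrank_span_singleton hn0] at h3
      omega
  have hx : x - ⟪x, n⟫ • n ∈ V := by
    rw [hVn, Submodule.mem_orthogonal_singleton_iff_inner_left, inner_sub_left,
      real_inner_smul_left, real_inner_self_eq_norm_sq, hn]
    ring
  rw [hV, Submodule.mem_span_image_finset_iff_exists_fun] at hx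
  obtain ⟨c, hc⟩ := hx
  have h4 := Dst_le x b T (fun j => if hj : j ∈ T then c ⟨j, hj⟩ else 0)
  have h5 : ∑ j ∈ T, (if hj : j ∈ T then c ⟨j, hj⟩ else 0) • b j = x - ⟪x, n⟫ • n := by
    rw [← hc, ← Finset.sum_attach T]
    apply Finset.sum_congr rfl
    intro j _
    simp
  rw [h5, sub_sub_cancel, enorm_smul, ← ofReal_norm n, hn, ENNReal.ofReal_one, mul_one] at h4
  exact h4

/-- integrating out one coordinate -/
lemma lintegral_update {X : Type*} [MeasurableSpace X] (μ : Measure X) [IsProbabilityMeasure μ]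
    (f : (J → X) → ℝ≥0∞) (hf : Measurable f) (i : J) :
    ∫⁻ b, ∫⁻ x, f (Function.update b i x) ∂μ ∂(Measure.pi fun _ : J => μ)
      = ∫⁻ b, f b ∂(Measure.pi fun _ : J => μ) := by
  have hm : Measurable fun b : J → X => ∫⁻ x, f (Function.update b i x) ∂μ := by
    have h1 := Measurable.lmarginal (fun _ : J => μ) (s := {i}) hf
    rwa [lmarginal_singleton] at h1
  apply lintegral_eq_of_lmarginal_eq {i} hm hf
  rw [lmarginal_singleton, lmarginal_singleton]
  funext b
  simp

/-- small distance probability -/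
lemma prob_Dst (T : Finset J) (i : J) (hi : i ∉ T) (hT : T.card < Module.finrank ℝ E)
    (s : ℝ≥0∞) :
    (Measure.pi fun _ : J => stdGaussian E) {b | Dst (b i) b T ≤ s} ≤ s := by
  have hms : MeasurableSet {b : J → E | Dst (b i) b T ≤ s} :=
    measurableSet_le (measurable_Dst' T i) measurable_const
  rw [← lintegral_indicator_one hms, ← lintegral_update (stdGaussian E) _
    (measurable_one.indicator hms) i]
  calc _ ≤ ∫⁻ b : J → E, s ∂(Measure.pi fun _ : J => stdGaussian E) := by
        apply lintegral_mono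
        intro b
        obtain ⟨n, hn, hbn⟩ := exists_normal b T hT
        calc ∫⁻ x, indicator {b : J → E | Dst (b i) b T ≤ s} 1 (Function.update b i x) ∂(stdGaussian E)
            ≤ ∫⁻ x, indicator {x : E | ‖⟪x, n⟫‖ₑ ≤ s} 1 x ∂(stdGaussian E) := by
              apply lintegral_mono
              intro x
              beta_reduce
              by_cases hx : Function.update b i x ∈ {b : J → E | Dst (b i) b T ≤ s}
              · rw [indicator_of_mem hx]
                simp only [mem_ofPred_eq, Function.update_self] at hx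
                rw [Dst_update x b T i hi x] at hx
                rw [indicator_of_mem (show x ∈ {x : E | ‖⟪x, n⟫‖ₑ ≤ s} from
                  (le_Dst x b T n hn hbn).trans hx)]
                exact le_rfl
              · rw [indicator_of_notMem hx]
                exact bot_le
          _ = stdGaussian E {x : E | ‖⟪x, n⟫‖ₑ ≤ s} := by
              rw [lintegral_indicator_one (measurableSet_le (by fun_prop) measurable_const)]
          _ ≤ s := proj_upper n hn s
    _ = s := by simp

/-- almost surely the distance is positive -/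
lemma ae_Dst (T : Finset J) (i : J) (hi : i ∉ T) (hT : T.card < Module.finrank ℝ E) :
    ∀ᵐ b ∂(Measure.pi fun _ : J => stdGaussian E), Dst (b i) b T ≠ 0 := by
  rw [ae_iff]
  apply le_antisymm _ bot_le
  have := prob_Dst (E := E) T i hi hT 0
  simpa using this

end R967.PR
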