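import Pool.Agent.R967.PR.Real

set_option autoImplicit false

open MeasureTheory ProbabilityTheory Set Filter Topology
open scoped ENNReal NNReal RealInnerProductSpace

namespace R967.PR

/-- The largest Euclidean norm of a row. -/
noncomputable def maxRow {N M : ℕ} (A : Matrix (Fin N) (Fin M) ℝ) : ℝ :=
  ⨆ k : Fin N, Real.sqrt (∑ j, A k j ^ 2)

/-- size of the binomial coefficient -/
lemma choose_big (β : ℝ) (hβ : 1 / 4 < β) (L M : ℕ) (hL : 16 ≤ (4 * β) ^ L) (hL2 : 2 ≤ L)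
    (hM : 2 * L ≤ M) :
    Real.sqrt (4 * β) ^ M ≤ 8 * M * (β ^ M * ((2 * M - 1 - M / L).choose (M - 1) : ℝ)) := by
  set r := M / L with hr
  set k := (2 * M - 1 - r).choose (M - 1) with hk
  have h4β : (1 : ℝ) < 4 * β := by linarith
  have hrL : r * L ≤ M := Nat.div_mul_le_self M L
  have hr2 : 2 * r ≤ M := by nlinarith
  have h1 : 4 ^ (M - 1) ≤ 2 * (M - 1) * (M - 1).centralBinom :=
    Nat.four_pow_le_two_mul_self_mul_centralBinom (M - 1) (by omega)
  have h2 : (M - 1).centralBinom ≤ (2 * M - 1).choose (M - 1) := by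
    rw [Nat.centralBinom]
    exact Nat.choose_le_choose _ (by omega)
  have h3 := choose_remove M r (by omega) hr2
  have h4 : 4 ^ (M - 1) ≤ 2 * M * (4 ^ r * k) := by
    calc 4 ^ (M - 1) ≤ 2 * (M - 1) * (M - 1).centralBinom := h1
      _ ≤ 2 * M * (4 ^ r * k) := Nat.mul_le_mul (by omega) (h2.trans h3)
  have h5 : (4 : ℝ) ^ M ≤ 8 * M * (4 ^ r * k) := by
    have h6 : ((4 ^ (M - 1) : ℕ) : ℝ) ≤ ((2 * M * (4 ^ r * k) : ℕ) : ℝ) := by exact_mod_cast h4
    push_cast at h6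
    have h7 : (4 : ℝ) ^ M = 4 * 4 ^ (M - 1) := by
      rw [← pow_succ']; congr 1; omega
    rw [h7]; linarith
  set θ := Real.sqrt (4 * β) with hθ
  have hθ1 : 1 ≤ θ := by rw [hθ]; exact Real.one_le_sqrt.2 h4β.le
  have hθ2 : θ ^ 2 = 4 * β := Real.sq_sqrt (by linarith)
  have h6 : (4 : ℝ) ^ r ≤ θ ^ M := by
    have h7 : ((4 : ℝ) ^ r) ^ 2 ≤ (θ ^ M) ^ 2 := by
      calc ((4 : ℝ) ^ r) ^ 2 = 16 ^ r := by rw [← pow_mul, mul_comm, pow_mul]; norm_num
        _ ≤ ((4 * β) ^ L) ^ r := pow_le_pow_left₀ (by norm_num) hL r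
        _ = (4 * β) ^ (r * L) := by rw [← pow_mul, mul_comm L r]
        _ ≤ (4 * β) ^ M := pow_le_pow_right₀ h4β.le hrL
        _ = (θ ^ M) ^ 2 := by rw [← hθ2, ← pow_mul, ← pow_mul, mul_comm]
    exact (sq_le_sq₀ (by positivity) (by positivity)).1 h7
  have hβ0 : 0 < β := by linarith
  have hθM : 0 < θ ^ M := pow_pos (by linarith) M
  have h8 : θ ^ M * θ ^ M ≤ (8 * M * (β ^ M * k)) * θ ^ M := by
    calc θ ^ M * θ ^ M = (4 * β) ^ M := by rw [← mul_pow, ← sq, hθ2]
      _ = 4 ^ M * β ^ M := mul_pow _ _ _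
      _ ≤ (8 * M * (4 ^ r * k)) * β ^ M := mul_le_mul_of_nonneg_right h5 (by positivity)
      _ ≤ (8 * M * (θ ^ M * k)) * β ^ M := by gcongr
      _ = _ := by ring
  exact le_of_mul_le_mul_right h8 hθM

/-- upper half, `1/4 < β < 1` -/
lemma upper_lt_one (β : ℝ) (hβ : 1 / 4 < β) (hβ1 : β ≤ 1) :
    Tendsto (fun M : ℕ => gaussMat M {A | β ^ M < omega (Matrix.of A)}) atTop (𝓝 0) := by
  have h4β : (1 : ℝ) < 4 * β := by linarith
  obtain ⟨L0, hL0⟩ := pow_unbounded_of_one_lt 16 h4β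
  set L := max L0 2 with hLdef
  have hL : 16 ≤ (4 * β) ^ L := hL0.le.trans (pow_le_pow_right₀ h4β.le (le_max_left _ _))
  have hL2 : 2 ≤ L := le_max_right _ _
  set θ := Real.sqrt (4 * β) with hθ
  have hθ1 : 1 < θ := by
    rw [hθ]; exact Real.lt_sqrt_of_sq_lt (by linarith)
  have hcc : 0 ≤ cc := ENNReal.toReal_nonneg
  have hβ0 : 0 < β := by linarith
  -- the bounding function
  have hlim : Tendsto (fun M : ℕ => 20 * cc * L * (Real.sqrt M)⁻¹ + 80 * ((M : ℝ) ^ 3 / θ ^ M))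
      atTop (𝓝 0) := by
    have t1 : Tendsto (fun M : ℕ => (Real.sqrt M)⁻¹) atTop (𝓝 0) :=
      (Real.tendsto_sqrt_atTop.comp tendsto_natCast_atTop_atTop).inv_tendsto_atTop
    have t2 := tendsto_pow_const_div_const_pow_of_one_lt 3 hθ1
    have := (t1.const_mul (20 * cc * L)).add (t2.const_mul 80)
    simpa using this
  have hlim2 : Tendsto (fun M : ℕ => ENNReal.ofReal
      (20 * cc * L * (Real.sqrt M)⁻¹ + 80 * ((M : ℝ) ^ 3 / θ ^ M))) atTop (𝓝 0) := by
    have := ENNReal.tendsto_ofReal hlim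
    simpa using this
  apply tendsto_of_tendsto_of_tendsto_of_le_of_le' tendsto_const_nhds hlim2
    (Eventually.of_forall fun _ => bot_le)
  filter_upwards [eventually_ge_atTop (2 * L)] with M hM
  set r := M / L with hr
  have hrL : r * L ≤ M := Nat.div_mul_le_self M L
  have hr2 : 2 ≤ r := (Nat.le_div_iff_mul_le (by omega)).2 hM
  have hrM : r ≤ M := Nat.div_le_self M L
  have h1 := upper_real M r (by omega) hrM (by omega) (β ^ M) (pow_pos hβ0 M)
    (pow_le_one₀ hβ0.le hβ1)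
  refine h1.trans (ENNReal.ofReal_le_ofReal ?_)
  have hMpos : (0 : ℝ) < M := by
    have : 0 < M := by omega
    exact_mod_cast this
  have hrpos : (0 : ℝ) < r := by
    have : 0 < r := by omega
    exact_mod_cast this
  apply add_le_add
  · have h2 : M ≤ 2 * r * L := by
      have h3 : M < (r + 1) * L := by
        rw [mul_comm]; exact Nat.lt_mul_div_succ M (by omega)
      have h4 : (r + 1) * L ≤ 2 * r * L := Nat.mul_le_mul_right L (by omega)
      omega
    have h3 : (M : ℝ) ≤ 2 * r * L := by exact_mod_cast h2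
    have hsq : Real.sqrt M * Real.sqrt M = M := Real.mul_self_sqrt hMpos.le
    have hsp : 0 < Real.sqrt M := Real.sqrt_pos.2 hMpos
    rw [div_le_iff₀ hrpos]
    have hdv : (M : ℝ) * (Real.sqrt M)⁻¹ = Real.sqrt M := by
      rw [← div_eq_mul_inv, div_eq_iff hsp.ne', hsq]
    calc 10 * cc * Real.sqrt M = 10 * cc * (M * (Real.sqrt M)⁻¹) := by
          rw [hdv]
      _ ≤ 10 * cc * ((2 * r * L) * (Real.sqrt M)⁻¹) := by gcongr
      _ = _ := by ring
  · have h2 := choose_big β hβ L M hL hL2 hM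
    rw [← hr, ← hθ] at h2
    have hkpos : (0 : ℝ) < ((2 * M - 1 - r).choose (M - 1) : ℝ) := by
      have : 0 < (2 * M - 1 - r).choose (M - 1) := Nat.choose_pos (by omega)
      exact_mod_cast this
    have hβM : 0 < β ^ M := pow_pos hβ0 M
    have hθM : 0 < θ ^ M := pow_pos (by linarith) M
    rw [← mul_div_assoc, div_le_div_iff₀ (by positivity) hθM]
    calc 10 * (M : ℝ) ^ 2 * θ ^ M
        ≤ 10 * (M : ℝ) ^ 2 * (8 * M * (β ^ M * ((2 * M - 1 - r).choose (M - 1) : ℝ))) := by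
          gcongr
      _ = _ := by ring

/-- upper half -/
lemma upper_all (β : ℝ) (hβ : 1 / 4 < β) :
    Tendsto (fun M : ℕ => gaussMat M {A | β ^ M < omega (Matrix.of A)}) atTop (𝓝 0) := by
  have h := upper_lt_one (min β 1) (lt_min hβ (by norm_num)) (min_le_right _ _)
  apply tendsto_of_tendsto_of_tendsto_of_le_of_le tendsto_const_nhds h (fun _ => bot_le)
  intro M
  apply measure_mono
  intro A hA
  have h0 : (0 : ℝ) ≤ min β 1 := le_min (by linarith) (by norm_num)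
  exact lt_of_le_of_lt (pow_le_pow_left₀ h0 (min_le_left _ _) M) hA

/-- lower half -/
lemma lower_all :
    Tendsto (fun M : ℕ => gaussMat M {A | omega (Matrix.of A) < (1 / 4) ^ M / (M : ℝ) ^ 2})
      atTop (𝓝 0) := by
  have t1 : Tendsto (fun M : ℕ => (Real.sqrt M)⁻¹) atTop (𝓝 0) :=
    (Real.tendsto_sqrt_atTop.comp tendsto_natCast_atTop_atTop).inv_tendsto_atTop
  have hlim : Tendsto (fun M : ℕ => ENNReal.ofReal ((Real.sqrt M)⁻¹)) atTop (𝓝 0) := by
    have := ENNReal.tendsto_ofReal t1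
    simpa using this
  apply tendsto_of_tendsto_of_tendsto_of_le_of_le' tendsto_const_nhds hlim
    (Eventually.of_forall fun _ => bot_le)
  filter_upwards [eventually_ge_atTop 1] with M hM
  have hMpos : (0 : ℝ) < M := by exact_mod_cast hM
  have hsp : 0 < Real.sqrt M := Real.sqrt_pos.2 hMpos
  have hsq : Real.sqrt M * Real.sqrt M = M := Real.mul_self_sqrt hMpos.le
  have h := lower_prob M hM ((1 / 4) ^ M / (M : ℝ) ^ 2 * Real.sqrt M) (by positivity)
  rw [mul_div_assoc, div_self hsp.ne', mul_one] at h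
  refine h.trans ?_
  have h2 : ((2 * M - 1).choose M : ℝ) ≤ 4 ^ M := by
    have h3 : (2 * M - 1).choose M ≤ 2 ^ (2 * M - 1) := Nat.choose_le_two_pow _ _
    have h4 : 2 ^ (2 * M - 1) ≤ 2 ^ (2 * M) := Nat.pow_le_pow_right (by norm_num) (by omega)
    have h5 : 2 ^ (2 * M) = 4 ^ M := by rw [pow_mul]; norm_num
    have h6 : (2 * M - 1).choose M ≤ 4 ^ M := by omega
    exact_mod_cast h6
  rw [← ENNReal.ofReal_natCast M, ← ENNReal.ofReal_natCast ((2 * M - 1).choose M),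
    ← ENNReal.ofReal_mul (by positivity), ← ENNReal.ofReal_mul (by positivity)]
  apply ENNReal.ofReal_le_ofReal
  calc ((2 * M - 1).choose M : ℝ) * (M * ((1 / 4) ^ M / (M : ℝ) ^ 2 * Real.sqrt M))
      ≤ 4 ^ M * (M * ((1 / 4) ^ M / (M : ℝ) ^ 2 * Real.sqrt M)) := by gcongr
    _ = (4 ^ M * (1 / 4) ^ M) * (Real.sqrt M / M) := by
        field_simp
    _ = (Real.sqrt M)⁻¹ := by
        rw [← mul_pow]
        norm_num
        rw [div_eq_iff hMpos.ne']
        rw [inv_mul_eq_div, eq_div_iff hsp.ne', hsq]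

end R967.PR
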