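import Mathlib

set_option autoImplicit false

/-! # Gaussian estimates (MP_77e4cc_pr): one-dimensional small balls and a negative moment -/

open MeasureTheory ProbabilityTheory Set Filter Topology
open scoped ENNReal NNReal RealInnerProductSpace

namespace R967.PR

variable {E : Type*} [NormedAddCommGroup E] [InnerProductSpace ℝ E] [FiniteDimensional ℝ E]
  [MeasurableSpace E] [BorelSpace E]

/-- The one-dimensional projections of the standard Gaussian measure. -/
lemma map_inner (n : E) (hn : ‖n‖ = 1) :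
    (stdGaussian E).map (fun x => ⟪x, n⟫) = gaussianReal 0 1 := by
  have h := IsGaussian.map_eq_gaussianReal (μ := stdGaussian E) (innerSL ℝ n)
  have e : (fun x : E => ⟪x, n⟫) = (innerSL ℝ n : StrongDual ℝ E) := by
    funext x; simp [real_inner_comm]
  have h1 : Var[(innerSL ℝ n : StrongDual ℝ E); stdGaussian E] = 1 := by
    rw [variance_dual_stdGaussian, innerSL_apply_norm, hn, one_pow]
  have h2 : ∫ x, (innerSL ℝ n : StrongDual ℝ E) x ∂(stdGaussian E) = 0 :=
    integral_strongDual_stdGaussian _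
  rw [e, h, h1, h2]
  simp

/-- density bound above -/
lemma small_upper (s : ℝ≥0∞) : gaussianReal 0 1 {y : ℝ | ‖y‖ₑ ≤ s} ≤ s := by
  by_cases hs : s = ⊤
  · rw [hs]; exact le_top
  lift s to ℝ≥0 using hs
  have hset : {y : ℝ | ‖y‖ₑ ≤ (s : ℝ≥0∞)} = Icc (-(s : ℝ)) s := by
    ext y
    simp only [mem_ofPred_eq, mem_Icc, ← abs_le]
    rw [show ‖y‖ₑ = ((‖y‖₊ : ℝ≥0) : ℝ≥0∞) from rfl, ENNReal.coe_le_coe, ← NNReal.coe_le_coe]
    simp
  rw [hset, gaussianReal_of_var_ne_zero 0 one_ne_zero, withDensity_apply _ measurableSet_Icc]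
  calc ∫⁻ x in Icc (-(s : ℝ)) s, gaussianPDF 0 1 x
      ≤ ∫⁻ x in Icc (-(s : ℝ)) s, ENNReal.ofReal (1 / 2) := by
        apply lintegral_mono
        intro x
        rw [gaussianPDF]
        apply ENNReal.ofReal_le_ofReal
        rw [gaussianPDFReal]
        have h1 : Real.exp (-(x - 0) ^ 2 / (2 * ((1 : ℝ≥0) : ℝ))) ≤ 1 := by
          apply Real.exp_le_one_iff.2
          simp only [sub_zero, NNReal.coe_one, mul_one]
          have := sq_nonneg x
          linarith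
        have h2 : (2 : ℝ) ≤ Real.sqrt (2 * Real.pi * ((1 : ℝ≥0) : ℝ)) := by
          apply Real.le_sqrt_of_sq_le
          have := Real.pi_gt_three
          simp; linarith
        calc (Real.sqrt (2 * Real.pi * ((1 : ℝ≥0) : ℝ)))⁻¹ * Real.exp (-(x - 0) ^ 2 / (2 * ((1 : ℝ≥0) : ℝ)))
            ≤ (2 : ℝ)⁻¹ * 1 := by
              apply mul_le_mul (inv_anti₀ (by norm_num) h2) h1 (Real.exp_nonneg _) (by norm_num)
          _ = 1 / 2 := by norm_num
    _ = ENNReal.ofReal (1 / 2) * volume (Icc (-(s : ℝ)) s) := by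
        rw [lintegral_const, Measure.restrict_apply MeasurableSet.univ, univ_inter]
    _ = s := by
        rw [Real.volume_Icc, ← ENNReal.ofReal_mul (by norm_num)]
        rw [show 1 / 2 * ((s : ℝ) - -(s : ℝ)) = (s : ℝ) by ring]
        exact ENNReal.ofReal_coe_nnreal

/-- density bound below -/
lemma small_lower (s : ℝ) (hs0 : 0 ≤ s) (hs1 : s ≤ 1) :
    ENNReal.ofReal (s / 5) ≤ gaussianReal 0 1 {y : ℝ | |y| < s} := by
  have hset : {y : ℝ | |y| < s} = Ioo (-s) s := by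
    ext y; simp [abs_lt]
  rw [hset, gaussianReal_of_var_ne_zero 0 one_ne_zero, withDensity_apply _ measurableSet_Ioo]
  calc ENNReal.ofReal (s / 5) = ENNReal.ofReal (1 / 10) * volume (Ioo (-s) s) := by
        rw [Real.volume_Ioo, ← ENNReal.ofReal_mul (by norm_num)]
        congr 1; ring
    _ = ∫⁻ x in Ioo (-s) s, ENNReal.ofReal (1 / 10) := by
        rw [lintegral_const, Measure.restrict_apply MeasurableSet.univ, univ_inter]
    _ ≤ ∫⁻ x in Ioo (-s) s, gaussianPDF 0 1 x := by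
        apply setLIntegral_mono (by fun_prop)
        intro x hx
        rw [gaussianPDF]
        apply ENNReal.ofReal_le_ofReal
        rw [gaussianPDFReal]
        have hx2 : x ^ 2 ≤ 1 := by
          have : |x| ≤ 1 := by
            rw [abs_le]; exact ⟨by linarith [hx.1], by linarith [hx.2]⟩
          nlinarith [abs_nonneg x, sq_abs x]
        have h1 : (1 : ℝ) / 2 ≤ Real.exp (-(x - 0) ^ 2 / (2 * ((1 : ℝ≥0) : ℝ))) := by
          have h3 := Real.add_one_le_exp (-(x - 0) ^ 2 / (2 * ((1 : ℝ≥0) : ℝ)))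
          have h4 : (1 : ℝ) / 2 ≤ -(x - 0) ^ 2 / (2 * ((1 : ℝ≥0) : ℝ)) + 1 := by
            simp; linarith
          linarith
        have h2 : Real.sqrt (2 * Real.pi * ((1 : ℝ≥0) : ℝ)) ≤ 5 := by
          rw [Real.sqrt_le_left (by norm_num)]
          have := Real.pi_lt_four
          simp; linarith
        have h5 : 0 < Real.sqrt (2 * Real.pi * ((1 : ℝ≥0) : ℝ)) := by
          apply Real.sqrt_pos.2
          have := Real.pi_pos
          simp; linarith
        calc (1 : ℝ) / 10 = 5⁻¹ * (1 / 2) := by norm_num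
          _ ≤ _ := by
            apply mul_le_mul (inv_anti₀ h5 h2) h1 (by norm_num) (by positivity)

/-- the negative moment is finite -/
lemma neg_moment : ∫⁻ y : ℝ, (‖y‖ₑ⁻¹) ^ ((2 : ℝ) / 3) ∂(gaussianReal 0 1) < ⊤ := by
  have hI := integrable_rpow_mul_exp_neg_mul_sq (b := 1 / 2) (by norm_num) (s := -(2 / 3))
    (by norm_num)
  have hI2 : ∫⁻ y : ℝ, 2 * ‖y ^ (-(2 / 3) : ℝ) * Real.exp (-(1 / 2) * y ^ 2)‖ₑ < ⊤ := by
    rw [lintegral_const_mul' _ _ (by norm_num)]
    exact ENNReal.mul_lt_top (by norm_num) hI.2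
  rw [gaussianReal_of_var_ne_zero 0 one_ne_zero,
    lintegral_withDensity_eq_lintegral_mul _ (measurable_gaussianPDF 0 1) (by fun_prop)]
  refine lt_of_le_of_lt (lintegral_mono_ae ?_) hI2
  have h0 : ∀ᵐ y : ℝ, y ≠ 0 := by
    rw [ae_iff]; simp
  filter_upwards [h0] with y hy
  have hy' : 0 < |y| := abs_pos.2 hy
  have e1 : (‖y‖ₑ⁻¹) ^ ((2 : ℝ) / 3) = ENNReal.ofReal (|y| ^ (-(2 / 3) : ℝ)) := by
    rw [Real.enorm_eq_ofReal_abs, ← ENNReal.ofReal_inv_of_pos hy',
      ENNReal.ofReal_rpow_of_nonneg (by positivity) (by norm_num), Real.inv_rpow hy'.le,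
      Real.rpow_neg hy'.le]
  have e2 : gaussianPDF 0 1 y ≤ ENNReal.ofReal (Real.exp (-(1 / 2) * y ^ 2)) := by
    rw [gaussianPDF]
    apply ENNReal.ofReal_le_ofReal
    rw [gaussianPDFReal]
    have h2 : (1 : ℝ) ≤ Real.sqrt (2 * Real.pi * ((1 : ℝ≥0) : ℝ)) := by
      apply Real.le_sqrt_of_sq_le
      have := Real.pi_gt_three
      simp; linarith
    calc (Real.sqrt (2 * Real.pi * ((1 : ℝ≥0) : ℝ)))⁻¹ * Real.exp (-(y - 0) ^ 2 / (2 * ((1 : ℝ≥0) : ℝ)))
        ≤ (1 : ℝ)⁻¹ * Real.exp (-(y - 0) ^ 2 / (2 * ((1 : ℝ≥0) : ℝ))) := by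
          apply mul_le_mul_of_nonneg_right (inv_anti₀ (by norm_num) h2) (Real.exp_nonneg _)
      _ = Real.exp (-(1 / 2) * y ^ 2) := by
          rw [inv_one, one_mul]; congr 1; simp; ring
  have e3 : |y| ^ (-(2 / 3) : ℝ) ≤ 2 * |y ^ (-(2 / 3) : ℝ)| := by
    rcases lt_or_gt_of_ne hy with h | h
    · rw [Real.rpow_def_of_neg h, abs_mul, Real.abs_exp, Real.rpow_def_of_pos hy', Real.log_abs]
      have hc : |Real.cos (-(2 / 3) * Real.pi)| = 1 / 2 := by
        have : Real.cos (-(2 / 3) * Real.pi) = - (1 / 2) := by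
          rw [show -(2 / 3) * Real.pi = -(Real.pi - Real.pi / 3) by ring, Real.cos_neg,
            Real.cos_pi_sub, Real.cos_pi_div_three]
        rw [this]; norm_num
      rw [hc]; linarith
    · rw [abs_of_pos h, abs_of_nonneg (Real.rpow_nonneg h.le _)]
      have := Real.rpow_nonneg h.le (-(2 / 3))
      linarith
  calc (gaussianPDF 0 1 * fun y : ℝ => (‖y‖ₑ⁻¹) ^ ((2 : ℝ) / 3)) y
      = gaussianPDF 0 1 y * (‖y‖ₑ⁻¹) ^ ((2 : ℝ) / 3) := rfl
    _ ≤ ENNReal.ofReal (Real.exp (-(1 / 2) * y ^ 2)) * ENNReal.ofReal (|y| ^ (-(2 / 3) : ℝ)) := by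
        rw [e1]; gcongr
    _ ≤ ENNReal.ofReal (Real.exp (-(1 / 2) * y ^ 2)) * ENNReal.ofReal (2 * |y ^ (-(2 / 3) : ℝ)|) := by
        gcongr
    _ = 2 * ‖y ^ (-(2 / 3) : ℝ) * Real.exp (-(1 / 2) * y ^ 2)‖ₑ := by
        rw [← ENNReal.ofReal_mul (Real.exp_nonneg _), Real.enorm_eq_ofReal_abs, abs_mul,
          Real.abs_exp, show (2 : ℝ≥0∞) = ENNReal.ofReal 2 by simp,
          ← ENNReal.ofReal_mul (by norm_num)]
        congr 1; ring

end R967.PR
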