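import Pool.Agent.R967.PR.Gauss

set_option autoImplicit false

open MeasureTheory ProbabilityTheory Set Filter Topology
open scoped ENNReal NNReal RealInnerProductSpace

namespace R967.PR

variable {E : Type*} [NormedAddCommGroup E] [InnerProductSpace ℝ E] [FiniteDimensional ℝ E]
  [MeasurableSpace E] [BorelSpace E]

lemma sq_gaussianReal : ∫⁻ y : ℝ, ‖y‖ₑ ^ (2 : ℕ) ∂(gaussianReal 0 1) = 1 := by
  have h1 : ∫ y : ℝ, y ^ 2 ∂(gaussianReal 0 1) = 1 := by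
    have h := variance_id_gaussianReal (μ := 0) (v := 1)
    rw [variance_of_integral_eq_zero (by fun_prop) (by simp [integral_id_gaussianReal])] at h
    simpa using h
  have h2 : Integrable (fun y : ℝ => y ^ 2) (gaussianReal 0 1) :=
    (IsGaussian.memLp_two_id (μ := gaussianReal 0 1)).integrable_sq
  have h3 := ofReal_integral_eq_lintegral_ofReal h2 (Eventually.of_forall fun y => sq_nonneg y)
  rw [h1] at h3
  rw [← ENNReal.ofReal_one, h3]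
  apply lintegral_congr
  intro y
  rw [Real.enorm_eq_ofReal_abs, ← ENNReal.ofReal_pow (abs_nonneg _), sq_abs]

lemma sq_moment : ∫⁻ x : E, ‖x‖ₑ ^ (2 : ℕ) ∂(stdGaussian E) = (Module.finrank ℝ E : ℝ≥0∞) := by
  set b := stdOrthonormalBasis ℝ E with hb
  have e : ∀ x : E, ‖x‖ₑ ^ (2 : ℕ) = ∑ i, ‖⟪x, b i⟫‖ₑ ^ (2 : ℕ) := by
    intro x
    have h := b.sum_sq_inner_left x
    have h1 : ∀ y : ℝ, ‖y‖ₑ ^ (2 : ℕ) = ENNReal.ofReal (y ^ 2) := by
      intro y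
      rw [Real.enorm_eq_ofReal_abs, ← ENNReal.ofReal_pow (abs_nonneg _), sq_abs]
    simp_rw [h1]
    rw [← ENNReal.ofReal_sum_of_nonneg (fun i _ => sq_nonneg _), h,
      ENNReal.ofReal_pow (norm_nonneg _), ofReal_norm]
  simp_rw [e]
  rw [lintegral_finsetSum _ (fun i _ => by fun_prop)]
  have h2 : ∀ i, ∫⁻ x : E, ‖⟪x, b i⟫‖ₑ ^ (2 : ℕ) ∂(stdGaussian E) = 1 := by
    intro i
    have h3 := map_inner (E := E) (b i) (b.norm_eq_one i)
    rw [← sq_gaussianReal, ← h3, lintegral_map (by fun_prop) (by fun_prop)]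
  simp_rw [h2]
  simp

/-- the constant of the negative moment -/
noncomputable def cneg : ℝ≥0∞ := ∫⁻ y : ℝ, (‖y‖ₑ⁻¹) ^ ((2 : ℝ) / 3) ∂(gaussianReal 0 1)

lemma cneg_lt : cneg < ⊤ := neg_moment

/-- the ratio moment -/
lemma ratio_moment (n : E) (hn : ‖n‖ = 1) :
    ∫⁻ x : E, (‖x‖ₑ * ‖⟪x, n⟫‖ₑ⁻¹) ^ ((1 : ℝ) / 2) ∂(stdGaussian E)
      ≤ (Module.finrank ℝ E : ℝ≥0∞) ^ ((1 : ℝ) / 4) * cneg ^ ((3 : ℝ) / 4) := by
  have hpq : (4 : ℝ).HolderConjugate (4 / 3) := by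
    rw [Real.holderConjugate_iff]; norm_num
  have h := ENNReal.lintegral_mul_le_Lp_mul_Lq (stdGaussian E) hpq
    (f := fun x : E => ‖x‖ₑ ^ ((1 : ℝ) / 2)) (g := fun x : E => (‖⟪x, n⟫‖ₑ⁻¹) ^ ((1 : ℝ) / 2))
    (by fun_prop) (by fun_prop)
  have e1 : ∀ x : E, (‖x‖ₑ * ‖⟪x, n⟫‖ₑ⁻¹) ^ ((1 : ℝ) / 2)
      = ((fun x : E => ‖x‖ₑ ^ ((1 : ℝ) / 2)) * (fun x : E => (‖⟪x, n⟫‖ₑ⁻¹) ^ ((1 : ℝ) / 2))) x := by
    intro x
    simp only [Pi.mul_apply]
    rw [ENNReal.mul_rpow_of_nonneg _ _ (by norm_num)]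
  simp_rw [e1]
  refine h.trans (le_of_eq ?_)
  congr 1
  · have : ∀ x : E, (‖x‖ₑ ^ ((1 : ℝ) / 2)) ^ (4 : ℝ) = ‖x‖ₑ ^ (2 : ℕ) := by
      intro x
      rw [← ENNReal.rpow_mul, ← ENNReal.rpow_natCast]; norm_num
    simp_rw [this, sq_moment]
  · have : ∀ x : E, ((‖⟪x, n⟫‖ₑ⁻¹) ^ ((1 : ℝ) / 2)) ^ ((4 : ℝ) / 3)
        = (‖⟪x, n⟫‖ₑ⁻¹) ^ ((2 : ℝ) / 3) := by
      intro x
      rw [← ENNReal.rpow_mul]; norm_num
    simp_rw [this]
    rw [show (1 : ℝ) / (4 / 3) = 3 / 4 by norm_num]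
    congr 1
    rw [cneg, ← map_inner (E := E) n hn, lintegral_map (by fun_prop) (by fun_prop)]

/-- small ball for one projection -/
lemma proj_upper (n : E) (hn : ‖n‖ = 1) (s : ℝ≥0∞) :
    stdGaussian E {x | ‖⟪x, n⟫‖ₑ ≤ s} ≤ s := by
  have h := small_upper s
  rw [← map_inner (E := E) n hn, Measure.map_apply (by fun_prop)
    (measurableSet_le (by fun_prop) (by fun_prop))] at h
  exact h

/-- two orthogonal projections -/
lemma proj_pair (n m : E) (hn : ‖n‖ = 1) (hm : ‖m‖ = 1) (hnm : ⟪n, m⟫ = 0) (s : ℝ) (t : ℝ≥0∞) :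
    stdGaussian E {x | |⟪x, n⟫| < s ∧ ‖⟪x, m⟫‖ₑ ≤ t} ≤ gaussianReal 0 1 {y : ℝ | |y| < s} * t := by
  have hG : HasGaussianLaw (fun x : E => (⟪x, n⟫, ⟪x, m⟫)) (stdGaussian E) := by
    have h := (IsGaussian.hasGaussianLaw_id (μ := stdGaussian E)).map
      ((innerSL ℝ n : StrongDual ℝ E).prod (innerSL ℝ m : StrongDual ℝ E))
    have e : (⇑((innerSL ℝ n : StrongDual ℝ E).prod (innerSL ℝ m : StrongDual ℝ E)) ∘ id)
        = (fun x : E => (⟪x, n⟫, ⟪x, m⟫)) := by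
      funext x; simp [real_inner_comm]
    rwa [e] at h
  have hc : cov[fun x : E => ⟪x, n⟫, fun x : E => ⟪x, m⟫; stdGaussian E] = 0 := by
    have h := covarianceBilin_apply_eq_cov (μ := stdGaussian E) IsGaussian.memLp_two_id n m
    rw [covarianceBilin_stdGaussian] at h
    have e1 : (fun x : E => ⟪x, n⟫) = fun u => ⟪n, u⟫ := by
      funext u; rw [real_inner_comm]
    have e2 : (fun x : E => ⟪x, m⟫) = fun u => ⟪m, u⟫ := by
      funext u; rw [real_inner_comm]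
    rw [e1, e2, ← h]
    exact (innerSL_apply_apply ℝ n m).trans hnm
  have hind : IndepFun (fun x : E => ⟪x, n⟫) (fun x : E => ⟪x, m⟫) (stdGaussian E) :=
    hG.indepFun_of_covariance_eq_zero hc
  have h1 := hind.measure_inter_preimage_eq_mul {y : ℝ | |y| < s} {y : ℝ | ‖y‖ₑ ≤ t}
    (measurableSet_lt (by fun_prop) (by fun_prop)) (measurableSet_le (by fun_prop) (by fun_prop))
  have h2 : {x : E | |⟪x, n⟫| < s ∧ ‖⟪x, m⟫‖ₑ ≤ t}
      = (fun x : E => ⟪x, n⟫) ⁻¹' {y : ℝ | |y| < s} ∩ (fun x : E => ⟪x, m⟫) ⁻¹' {y : ℝ | ‖y‖ₑ ≤ t} := rfl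
  rw [h2, h1]
  apply mul_le_mul' _ (proj_upper m hm t)
  rw [← map_inner (E := E) n hn, Measure.map_apply (by fun_prop)
    (measurableSet_lt (by fun_prop) (by fun_prop))]

/-- the law of the small slab -/
lemma proj_eq (n : E) (hn : ‖n‖ = 1) (s : ℝ) :
    stdGaussian E {x | |⟪x, n⟫| < s} = gaussianReal 0 1 {y : ℝ | |y| < s} := by
  rw [← map_inner (E := E) n hn, Measure.map_apply (by fun_prop)
    (measurableSet_lt (by fun_prop) (by fun_prop))]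
  rfl

end R967.PR
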