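import Pool.Agent.R967.PR.Pair

set_option autoImplicit false

open MeasureTheory ProbabilityTheory Set Filter Topology
open scoped ENNReal NNReal RealInnerProductSpace

namespace R967.PR

variable {E : Type*} [NormedAddCommGroup E] [InnerProductSpace ℝ E] [FiniteDimensional ℝ E]
  [MeasurableSpace E] [BorelSpace E]
variable {J : Type*} [Fintype J] [DecidableEq J]

/-- number of sets close to a given one -/
lemma near_card (k : ℕ) (hk : 1 ≤ k) (T : Finset J) (hT : T.card = k) :
    (((Finset.univ : Finset J).powersetCard k).filter (fun T' => ¬ 1 < (T' \ T).card)).card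
      ≤ k * Fintype.card J := by
  classical
  have hsub : (((Finset.univ : Finset J).powersetCard k).filter (fun T' => ¬ 1 < (T' \ T).card))
      ⊆ (T ×ˢ (Finset.univ : Finset J)).image (fun xy => insert xy.2 (T.erase xy.1)) := by
    intro T' hT'
    rw [Finset.mem_filter, Finset.mem_powersetCard] at hT'
    obtain ⟨⟨-, hc⟩, hn⟩ := hT'
    rw [Finset.mem_image]
    have hcomm : (T' \ T).card = (T \ T').card := Finset.card_sdiff_comm (by omega)
    rcases Nat.lt_or_ge (T' \ T).card 1 with h0 | h1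
    · have e1 : T' \ T = ∅ := Finset.card_eq_zero.1 (by omega)
      have e2 : T' = T := Finset.eq_of_subset_of_card_le (Finset.sdiff_eq_empty_iff_subset.1 e1)
        (by omega)
      obtain ⟨x, hx⟩ : T.Nonempty := Finset.card_pos.1 (by omega)
      refine ⟨(x, x), by simp [hx], ?_⟩
      simp only
      rw [Finset.insert_erase hx, e2]
    · have e1 : (T' \ T).card = 1 := by omega
      obtain ⟨y, hy⟩ := Finset.card_eq_one.1 e1
      obtain ⟨x, hx⟩ := Finset.card_eq_one.1 (hcomm ▸ e1)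
      have hx1 : x ∈ T \ T' := by rw [hx]; simp
      rw [Finset.mem_sdiff] at hx1
      refine ⟨(x, y), by simp [hx1.1], ?_⟩
      ext z
      simp only [Finset.mem_insert, Finset.mem_erase]
      have hy2 : z ∈ T' \ T ↔ z = y := by rw [hy]; simp
      have hx2 : z ∈ T \ T' ↔ z = x := by rw [hx]; simp
      rw [Finset.mem_sdiff] at hy2 hx2
      tauto
  refine (Finset.card_le_card hsub).trans (Finset.card_image_le.trans ?_)
  rw [Finset.card_product, hT, Finset.card_univ]

/-- The main estimate: reserved rows and second moment. -/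
theorem main_est {R : Type*} [Fintype R] [Nonempty J] (M : ℕ) (hM : Module.finrank ℝ E = M)
    (hM2 : 2 ≤ M) (d : ℝ) (B : Set ((R → E) × (J → E))) (hB : MeasurableSet B)
    (h : ∀ a b, (a, b) ∈ B → ∀ k : R, ∀ T : Finset J, T.card = M - 1 → ∀ v : E, ‖v‖ = 1 →
      (∀ j ∈ T, ⟪b j, v⟫ = 0) → d ≤ |⟪a k, v⟫|)
    (p K : ℝ≥0∞) (hp : p = gaussianReal 0 1 {y : ℝ | |y| < d})
    (hK : K = ((Fintype.card J).choose (M - 1) : ℝ≥0∞)) :
    ((Measure.pi fun _ : R => stdGaussian E).prod (Measure.pi fun _ : J => stdGaussian E)) B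
        * ((Fintype.card R : ℝ≥0∞) * (K * p) ^ 2)
      ≤ K * (K * (p * ENNReal.ofReal (2 * d) * (I0 M * I0 M))
          + ((M - 1) * Fintype.card J : ℕ) * p) := by
  classical
  set γ := stdGaussian E with hγ
  set PJ := (Measure.pi fun _ : J => γ) with hPJ
  set PR := (Measure.pi fun _ : R => γ) with hPR
  set 𝒯 := (Finset.univ : Finset J).powersetCard (M - 1) with h𝒯
  have hcard : (𝒯.card : ℝ≥0∞) = K := by
    rw [h𝒯, Finset.card_powersetCard, Finset.card_univ, hK]
  have hT𝒯 : ∀ T ∈ 𝒯, T.card = M - 1 := fun T hT => (Finset.mem_powersetCard.1 hT).2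
  -- the chosen pairs of elements
  have hch : ∀ T T' : Finset J, ∃ ij : J × J, 1 < (T' \ T).card →
      (ij.1 ∈ T' \ T ∧ ij.2 ∈ T' \ T ∧ ij.1 ≠ ij.2) := by
    intro T T'
    by_cases h1 : 1 < (T' \ T).card
    · obtain ⟨i, hi, j, hj, hij⟩ := Finset.one_lt_card.1 h1
      exact ⟨(i, j), fun _ => ⟨hi, hj, hij⟩⟩
    · exact ⟨(Classical.arbitrary J, Classical.arbitrary J), fun h2 => absurd h2 h1⟩
  choose ij hij using hch
  set Z : Finset J → Finset J → (J → E) → ℝ≥0∞ := fun T T' b =>
    if 1 < (T' \ T).card then p * ENNReal.ofReal (2 * d) * (uu (ij T T').1 T b * uu (ij T T').2 T b)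
    else p with hZ
  have hZm : ∀ T T', Measurable (Z T T') := by
    intro T T'
    rw [hZ]
    simp only
    split_ifs
    · exact ((measurable_uu _ T).mul (measurable_uu _ T)).const_mul _
    · exact measurable_const
  -- integral of Z
  have hZint : ∀ T ∈ 𝒯, ∀ T' ∈ 𝒯, ∫⁻ b, Z T T' b ∂PJ
      ≤ p * ENNReal.ofReal (2 * d) * (I0 M * I0 M) + if ¬ 1 < (T' \ T).card then p else 0 := by
    intro T hT T' hT'
    by_cases h1 : 1 < (T' \ T).card
    · have h2 := hij T T' h1
      simp only [hZ, h1, if_true, not_true, if_false, add_zero]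
      have hmm : Measurable fun b : J → E => uu (ij T T').1 T b * uu (ij T T').2 T b :=
        (measurable_uu _ T).mul (measurable_uu _ T)
      rw [lintegral_const_mul _ hmm]
      gcongr
      rw [← hM]
      apply lintegral_uu2 _ _ h2.2.2 T (Finset.mem_sdiff.1 h2.1).2 (Finset.mem_sdiff.1 h2.2.1).2
      rw [hT𝒯 T hT, hM]; omega
    · simp only [hZ, h1, if_false, not_false_iff, if_true]
      rw [lintegral_const, measure_univ, mul_one]
      exact le_add_self
  -- total integral
  have htot : ∫⁻ b, ∑ T ∈ 𝒯, ∑ T' ∈ 𝒯, Z T T' b ∂PJ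
      ≤ K * (K * (p * ENNReal.ofReal (2 * d) * (I0 M * I0 M))
          + ((M - 1) * Fintype.card J : ℕ) * p) := by
    rw [lintegral_finsetSum _ (fun T _ => Finset.measurable_sum _ (fun T' _ => hZm T T'))]
    calc ∑ T ∈ 𝒯, ∫⁻ b, ∑ T' ∈ 𝒯, Z T T' b ∂PJ
        ≤ ∑ T ∈ 𝒯, (K * (p * ENNReal.ofReal (2 * d) * (I0 M * I0 M))
          + ((M - 1) * Fintype.card J : ℕ) * p) := by
          apply Finset.sum_le_sum
          intro T hT
          rw [lintegral_finsetSum _ (fun T' _ => hZm T T')]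
          refine (Finset.sum_le_sum (fun T' hT' => hZint T hT T' hT')).trans ?_
          rw [Finset.sum_add_distrib, Finset.sum_const, nsmul_eq_mul, hcard]
          gcongr
          rw [← Finset.sum_filter, Finset.sum_const, nsmul_eq_mul]
          gcongr
          exact near_card (M - 1) (by omega) T (hT𝒯 T hT)
      _ = _ := by rw [Finset.sum_const, nsmul_eq_mul, hcard]
  -- disintegration
  rw [Measure.prod_apply_symm hB]
  rw [← lintegral_mul_const' _ _ (by
    rw [hp, hK]
    refine ENNReal.mul_ne_top (by simp) (ENNReal.pow_ne_top (ENNReal.mul_ne_top (by simp)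
      (measure_ne_top _ _))))]
  refine le_trans (lintegral_mono_ae ?_) htot
  have hgp : ∀ᵐ b ∂PJ, ∀ T : Finset J, ∀ i : J, i ∉ T → T.card < M → Dst (b i) b T ≠ 0 := by
    rw [ae_all_iff]; intro T
    rw [ae_all_iff]; intro i
    by_cases hi : i ∉ T
    · by_cases hT : T.card < M
      · filter_upwards [ae_Dst (E := E) T i hi (by rw [hM]; exact hT)] with b hb _ _
        exact hb
      · exact Eventually.of_forall fun b _ h2 => absurd h2 hT
    · exact Eventually.of_forall fun b h1 => absurd h1 hi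
  filter_upwards [hgp] with b hb
  -- normals
  have hno : ∀ T : Finset J, ∃ n : E, T.card < M → (‖n‖ = 1 ∧ ∀ j ∈ T, ⟪b j, n⟫ = 0) := by
    intro T
    by_cases hT : T.card < M
    · obtain ⟨n, hn⟩ := exists_normal b T (by rw [hM]; exact hT)
      exact ⟨n, fun _ => hn⟩
    · exact ⟨0, fun h => absurd h hT⟩
  choose nn hnn using hno
  have hlt : ∀ T ∈ 𝒯, T.card < M := fun T hT => by rw [hT𝒯 T hT]; omega
  set A : Finset J → Set E := fun T => {x | |⟪x, nn T⟫| < d} with hA
  have hAm : ∀ T, MeasurableSet (A T) := fun T => measurableSet_lt (by fun_prop) (by fun_prop)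
  set F : Set E := ⋃ T ∈ 𝒯, A T with hF
  have hFm : MeasurableSet F := Finset.measurableSet_biUnion 𝒯 (fun t _ => hAm t)
  have hsec := second_moment γ 𝒯 A hAm p (fun T hT => by
    rw [hp]; exact proj_eq (nn T) (hnn T (hlt T hT)).1 d)
  rw [hcard] at hsec
  -- the slice
  have hslice : PR ((fun a => (a, b)) ⁻¹' B) ≤ (1 - γ F) ^ (Fintype.card R) := by
    calc PR ((fun a => (a, b)) ⁻¹' B) ≤ PR (Set.pi univ fun _ : R => Fᶜ) := by
          apply measure_mono
          intro a ha k _ hk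
          rw [hF, mem_iUnion₂] at hk
          obtain ⟨T, hT, hk⟩ := hk
          have := h a b ha k T (hT𝒯 T hT) (nn T) (hnn T (hlt T hT)).1 (hnn T (hlt T hT)).2
          exact absurd hk (not_lt.2 this)
      _ = (1 - γ F) ^ (Fintype.card R) := by
          rw [hPR, Measure.pi_pi, Finset.prod_const, Finset.card_univ, prob_compl_eq_one_sub hFm]
  -- the pair bounds
  have hpairs : ∑ T ∈ 𝒯, ∑ T' ∈ 𝒯, γ (A T ∩ A T') ≤ ∑ T ∈ 𝒯, ∑ T' ∈ 𝒯, Z T T' b := by
    apply Finset.sum_le_sum; intro T hT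
    apply Finset.sum_le_sum; intro T' hT'
    by_cases h1 : 1 < (T' \ T).card
    · have h2 := hij T T' h1
      simp only [hZ, h1, if_true]
      rw [hp]
      apply pair_est b T T' _ (by rw [hT𝒯 T hT, hM]; omega) _ _ (Finset.mem_sdiff.1 h2.1).1
        (Finset.mem_sdiff.1 h2.2.1).1 (hb T _ (Finset.mem_sdiff.1 h2.1).2 (hlt T hT))
        (hb T _ (Finset.mem_sdiff.1 h2.2.1).2 (hlt T hT)) (nn T) (nn T') (hnn T (hlt T hT)).1
        (hnn T' (hlt T' hT')).1 (hnn T (hlt T hT)).2 (hnn T' (hlt T' hT')).2 d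
      apply indep_of_Dst
      intro i hi
      apply hb (T.erase i) i (Finset.notMem_erase i T)
      exact lt_of_le_of_lt (Finset.card_le_card (Finset.erase_subset i T)) (hlt T hT)
    · simp only [hZ, h1, if_false]
      refine (measure_mono inter_subset_left).trans ?_
      rw [hp]; exact (proj_eq (nn T) (hnn T (hlt T hT)).1 d).le
  calc PR ((fun a => (a, b)) ⁻¹' B) * ((Fintype.card R : ℝ≥0∞) * (K * p) ^ 2)
      ≤ (1 - γ F) ^ (Fintype.card R) * ((Fintype.card R : ℝ≥0∞)
        * ((∑ T ∈ 𝒯, ∑ T' ∈ 𝒯, γ (A T ∩ A T')) * γ F)) := by gcongr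
    _ = ((1 - γ F) ^ (Fintype.card R) * ((Fintype.card R : ℝ≥0∞) * γ F))
        * (∑ T ∈ 𝒯, ∑ T' ∈ 𝒯, γ (A T ∩ A T')) := by ring
    _ ≤ 1 * (∑ T ∈ 𝒯, ∑ T' ∈ 𝒯, Z T T' b) := by
        gcongr
        exact bern (γ F) prob_le_one _
    _ = _ := one_mul _

end R967.PR
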