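import Pool.Agent.R967.PR.Main

set_option autoImplicit false

open MeasureTheory ProbabilityTheory Set Filter Topology
open scoped ENNReal NNReal RealInnerProductSpace

namespace R967.PR

/-- `σ_M(B)`: the `M`-th largest singular value of a matrix with `M` columns (Mathlib numbers the
singular values from `0` and continues the sequence by `0`, so this is `0` when `B` has fewer than
`M` rows). -/
noncomputable def sigma {ι : Type*} [Fintype ι] {M : ℕ} (B : Matrix ι (Fin M) ℝ) : ℝ :=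
  (Matrix.toEuclideanLin B).singularValues (M - 1)

/-- `ω(A)`, the minimum of `σ_M(A_S)` over the sets of rows `S` with `rank (A_{Sᶜ}) < M`. -/
noncomputable def omega {N M : ℕ} (A : Matrix (Fin N) (Fin M) ℝ) : ℝ :=
  ⨅ S : {S : Finset (Fin N) //
      (A.submatrix (fun i : (Sᶜ : Finset (Fin N)) => (i : Fin N)) id).rank < M},
    sigma (A.submatrix (fun i : (S : Finset (Fin N)) => (i : Fin N)) id)

/-- the `k`-th row as a Euclidean vector -/
noncomputable def rowv {ι : Type*} {M : ℕ} (A : Matrix ι (Fin M) ℝ) (k : ι) :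
    EuclideanSpace ℝ (Fin M) := WithLp.toLp 2 (A k)

section sing

variable {E F : Type*} [NormedAddCommGroup E] [InnerProductSpace ℝ E] [FiniteDimensional ℝ E]
  [NormedAddCommGroup F] [InnerProductSpace ℝ F] [FiniteDimensional ℝ F]

lemma sing_le (T : E →ₗ[ℝ] F) (M : ℕ) (hM : Module.finrank ℝ E = M) (hM1 : 1 ≤ M) (v : E)
    (hv : ‖v‖ = 1) : T.singularValues (M - 1) ≤ ‖T v‖ := by
  have hT := T.isSymmetric_adjoint_comp_self
  set b := hT.eigenvectorBasis hM with hb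
  have h1 : ‖T v‖ ^ 2 = ∑ i, hT.eigenvalues hM i * ⟪b i, v⟫ ^ 2 := by
    have e1 : ‖T v‖ ^ 2 = ⟪(LinearMap.adjoint T ∘ₗ T) v, v⟫ := by
      rw [LinearMap.comp_apply, LinearMap.adjoint_inner_left, real_inner_self_eq_norm_sq]
    rw [e1, ← b.sum_inner_mul_inner]
    apply Finset.sum_congr rfl
    intro i _
    have e2 : ⟪(LinearMap.adjoint T ∘ₗ T) v, b i⟫ = hT.eigenvalues hM i * ⟪b i, v⟫ := by
      rw [hT v (b i), hb, hT.apply_eigenvectorBasis hM i, real_inner_comm]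
      simp [real_inner_smul_left]
    rw [e2]; ring
  have h2 : ∀ i, T.singularValues (M - 1) ^ 2 ≤ hT.eigenvalues hM i := by
    intro i
    rw [T.sq_singularValues_of_lt hM (by omega : M - 1 < M)]
    apply hT.eigenvalues_antitone hM
    rw [Fin.le_def]
    simp only
    omega
  have h3 : ∑ i, ⟪b i, v⟫ ^ 2 = 1 := by
    have := b.sum_sq_inner_right v
    rw [this, hv, one_pow]
  have h4 : T.singularValues (M - 1) ^ 2 ≤ ‖T v‖ ^ 2 := by
    calc T.singularValues (M - 1) ^ 2 = ∑ i, T.singularValues (M - 1) ^ 2 * ⟪b i, v⟫ ^ 2 := by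
          rw [← Finset.mul_sum, h3, mul_one]
      _ ≤ ∑ i, hT.eigenvalues hM i * ⟪b i, v⟫ ^ 2 := by
          apply Finset.sum_le_sum
          intro i _
          exact mul_le_mul_of_nonneg_right (h2 i) (sq_nonneg _)
      _ = ‖T v‖ ^ 2 := h1.symm
  exact (sq_le_sq₀ (T.singularValues_nonneg _) (norm_nonneg _)).1 h4

lemma le_sing (T : E →ₗ[ℝ] F) (M : ℕ) (hM : Module.finrank ℝ E = M) (hM1 : 1 ≤ M) (t : ℝ)
    (h : ∀ v : E, ‖v‖ = 1 → t ≤ ‖T v‖) : t ≤ T.singularValues (M - 1) := by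
  have h1 := T.hasEigenvalue_adjoint_comp_self_sq_singularValues (n := M - 1) (by omega)
  obtain ⟨x, hx⟩ := h1.exists_hasEigenvector
  have hx0 : x ≠ 0 := hx.2
  have hx1 := hx.apply_eq_smul
  have hn : 0 < ‖x‖ := norm_pos_iff.2 hx0
  have h2 : ‖T x‖ ^ 2 = T.singularValues (M - 1) ^ 2 * ‖x‖ ^ 2 := by
    have e1 : ‖T x‖ ^ 2 = ⟪(LinearMap.adjoint T ∘ₗ T) x, x⟫ := by
      rw [LinearMap.comp_apply, LinearMap.adjoint_inner_left, real_inner_self_eq_norm_sq]
    rw [e1, hx1]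
    simp [real_inner_smul_left]
  have h3 : ‖T x‖ = T.singularValues (M - 1) * ‖x‖ := by
    rw [← mul_pow] at h2
    exact (sq_eq_sq₀ (norm_nonneg _) (mul_nonneg (T.singularValues_nonneg _) (norm_nonneg _))).1 h2
  have h4 := h ((‖x‖⁻¹ : ℝ) • x) (by rw [norm_smul, norm_inv, norm_norm, inv_mul_cancel₀ hn.ne'])
  rw [map_smul, norm_smul, norm_inv, norm_norm, h3] at h4
  rwa [mul_comm, mul_assoc, mul_inv_cancel₀ hn.ne', mul_one] at h4

end sing

lemma sq_norm_submatrix {N M : ℕ} (A : Matrix (Fin N) (Fin M) ℝ) (S : Finset (Fin N))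
    (v : EuclideanSpace ℝ (Fin M)) :
    ‖Matrix.toEuclideanLin (A.submatrix (fun i : S => (i : Fin N)) id) v‖ ^ 2
      = ∑ i ∈ S, ⟪rowv A i, v⟫ ^ 2 := by
  rw [EuclideanSpace.real_norm_sq_eq, ← Finset.sum_coe_sort S]
  apply Finset.sum_congr rfl
  intro i _
  congr 1
  rw [Matrix.toLpLin_apply]
  simp only [Matrix.mulVec, dotProduct, Matrix.submatrix_apply, id, rowv, PiLp.inner_apply]
  apply Finset.sum_congr rfl
  intro j _
  simp [mul_comm]

/-- the upper bound for `ω` -/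
lemma omega_le {M : ℕ} (hM1 : 1 ≤ M) (A : Matrix (Fin (2 * M - 1)) (Fin M) ℝ)
    (S : Finset (Fin (2 * M - 1))) (hS : S.card = M) (v : EuclideanSpace ℝ (Fin M))
    (hv : ‖v‖ = 1) : omega A ^ 2 ≤ ∑ i ∈ S, ⟪rowv A i, v⟫ ^ 2 := by
  have hr : (A.submatrix (fun i : (Sᶜ : Finset (Fin (2 * M - 1))) => (i : Fin (2 * M - 1))) id).rank
      < M := by
    refine lt_of_le_of_lt (Matrix.rank_le_card_height _) ?_
    rw [Fintype.card_coe, Finset.card_compl, Fintype.card_fin, hS]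
    omega
  have hbdd : BddBelow (Set.range fun S : {S : Finset (Fin (2 * M - 1)) //
      (A.submatrix (fun i : (Sᶜ : Finset (Fin (2 * M - 1))) => (i : Fin (2 * M - 1))) id).rank < M} =>
    sigma (A.submatrix (fun i : (S : Finset (Fin (2 * M - 1))) => (i : Fin (2 * M - 1))) id)) := by
    refine ⟨0, ?_⟩
    rintro _ ⟨S, rfl⟩
    exact LinearMap.singularValues_nonneg _ _
  have h1 : omega A ≤ sigma (A.submatrix (fun i : S => (i : Fin (2 * M - 1))) id) :=
    ciInf_le hbdd ⟨S, hr⟩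
  have h2 : sigma (A.submatrix (fun i : S => (i : Fin (2 * M - 1))) id)
      ≤ ‖Matrix.toEuclideanLin (A.submatrix (fun i : S => (i : Fin (2 * M - 1))) id) v‖ :=
    sing_le _ M (by simp) hM1 v hv
  have h0 : 0 ≤ omega A := Real.iInf_nonneg fun S => LinearMap.singularValues_nonneg _ _
  rw [← sq_norm_submatrix]
  exact pow_le_pow_left₀ h0 (h1.trans h2) 2

section low

variable {E : Type*} [NormedAddCommGroup E] [InnerProductSpace ℝ E] [FiniteDimensional ℝ E]
variable {J : Type*} [Fintype J] [DecidableEq J]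

lemma low_bound (w : J → E) (S : Finset J) (hS : S.card = Module.finrank ℝ E) (s : ℝ) (hs : 0 < s)
    (h : ∀ i ∈ S, ENNReal.ofReal s < Dst (w i) w (S.erase i)) (v : E) (hv : ‖v‖ = 1) :
    s ^ 2 ≤ (S.card : ℝ) * ∑ i ∈ S, ⟪w i, v⟫ ^ 2 := by
  have hli := indep_of_Dst w S (fun i hi => (lt_of_le_of_lt bot_le (h i hi)).ne')
  have hLI := linInd_of w S hli
  have hspan : Submodule.span ℝ (w '' (S : Set J)) = ⊤ := by
    have h1 := hLI.span_eq_top_of_card_eq_finrank' (by rw [Fintype.card_coe, hS])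
    have h2 : Set.range (fun j : S => w j) = w '' (S : Set J) := by ext y; simp
    rwa [h2] at h1
  have hvs : v ∈ Submodule.span ℝ (w '' (S : Set J)) := by rw [hspan]; trivial
  rw [Submodule.mem_span_image_finset_iff_exists_fun] at hvs
  obtain ⟨c, hc⟩ := hvs
  set y : J → ℝ := fun j => if hj : j ∈ S then c ⟨j, hj⟩ else 0 with hy
  have hvy : ∑ j ∈ S, y j • w j = v := by
    rw [← hc, ← Finset.sum_attach S]
    apply Finset.sum_congr rfl
    intro j _
    simp [hy]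
  have hyb : ∀ i ∈ S, (y i * s) ^ 2 ≤ 1 := by
    intro i hi
    by_cases hyi : y i = 0
    · rw [hyi]; simp
    have h1 := Dst_le (w i) w (S.erase i) (fun j => -(y j / y i))
    have h2 := lt_of_lt_of_le (h i hi) h1
    have h3 : v = y i • (w i - ∑ j ∈ S.erase i, (-(y j / y i)) • w j) := by
      rw [← hvy, ← Finset.add_sum_erase S _ hi, smul_sub, Finset.smul_sum, sub_eq_add_neg,
        ← Finset.sum_neg_distrib]
      congr 1
      apply Finset.sum_congr rfl
      intro j _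
      rw [smul_smul, ← neg_smul]
      congr 1
      field_simp
    have h4 : s < ‖w i - ∑ j ∈ S.erase i, (-(y j / y i)) • w j‖ := by
      rw [← ofReal_norm] at h2
      exact (ENNReal.ofReal_lt_ofReal_iff_of_nonneg hs.le).1 h2
    have h5 : 1 = |y i| * ‖w i - ∑ j ∈ S.erase i, (-(y j / y i)) • w j‖ := by
      rw [← hv]
      conv_lhs => rw [h3]
      rw [norm_smul, Real.norm_eq_abs]
    have h6 : |y i| * s ≤ 1 := by
      rw [h5]
      exact mul_le_mul_of_nonneg_left h4.le (abs_nonneg _)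
    have h7 : 0 ≤ |y i| * s := mul_nonneg (abs_nonneg _) hs.le
    calc (y i * s) ^ 2 = (|y i| * s) ^ 2 := by rw [mul_pow, mul_pow, sq_abs]
      _ ≤ 1 := pow_le_one₀ h7 h6
  have h1 : (1 : ℝ) = ∑ i ∈ S, y i * ⟪w i, v⟫ := by
    have : ⟪v, v⟫ = (1 : ℝ) := by rw [real_inner_self_eq_norm_sq, hv, one_pow]
    rw [← this]
    conv_lhs => rw [← hvy]
    rw [sum_inner]
    apply Finset.sum_congr rfl
    intro i _
    rw [real_inner_smul_left, hvy]
  have h2 : (1 : ℝ) ≤ (∑ i ∈ S, y i ^ 2) * ∑ i ∈ S, ⟪w i, v⟫ ^ 2 := by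
    have h3 := Finset.sum_mul_sq_le_sq_mul_sq S y (fun i => ⟪w i, v⟫)
    rw [← h1, one_pow] at h3
    exact h3
  have h3 : s ^ 2 * ∑ i ∈ S, y i ^ 2 ≤ (S.card : ℝ) := by
    rw [Finset.mul_sum]
    calc ∑ i ∈ S, s ^ 2 * y i ^ 2 ≤ ∑ i ∈ S, (1 : ℝ) := by
          apply Finset.sum_le_sum
          intro i hi
          have := hyb i hi
          rw [mul_pow] at this
          linarith
      _ = (S.card : ℝ) := by simp
  have h4 : 0 ≤ ∑ i ∈ S, ⟪w i, v⟫ ^ 2 := Finset.sum_nonneg fun i _ => sq_nonneg _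
  calc s ^ 2 = s ^ 2 * 1 := (mul_one _).symm
    _ ≤ s ^ 2 * ((∑ i ∈ S, y i ^ 2) * ∑ i ∈ S, ⟪w i, v⟫ ^ 2) :=
        mul_le_mul_of_nonneg_left h2 (sq_nonneg _)
    _ = (s ^ 2 * ∑ i ∈ S, y i ^ 2) * ∑ i ∈ S, ⟪w i, v⟫ ^ 2 := by ring
    _ ≤ (S.card : ℝ) * ∑ i ∈ S, ⟪w i, v⟫ ^ 2 := mul_le_mul_of_nonneg_right h3 h4

end low

/-- the lower bound for `ω` -/
lemma le_omega {M : ℕ} (hM1 : 1 ≤ M) (A : Matrix (Fin (2 * M - 1)) (Fin M) ℝ) (s : ℝ) (hs : 0 < s)
    (h : ∀ S : Finset (Fin (2 * M - 1)), S.card = M → ∀ i ∈ S,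
      ENNReal.ofReal s < Dst (rowv A i) (rowv A) (S.erase i)) :
    s / Real.sqrt M ≤ omega A := by
  have hMpos : (0 : ℝ) < M := by exact_mod_cast hM1
  have key : ∀ S : Finset (Fin (2 * M - 1)), M ≤ S.card → ∀ v : EuclideanSpace ℝ (Fin M), ‖v‖ = 1 →
      (s / Real.sqrt M) ^ 2 ≤ ∑ i ∈ S, ⟪rowv A i, v⟫ ^ 2 := by
    intro S hS v hv
    obtain ⟨S', hS', hc⟩ := Finset.exists_subset_card_eq hS
    have h1 := low_bound (rowv A) S' (by simpa using hc) s hs (h S' hc) v hv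
    rw [hc] at h1
    have h2 : ∑ i ∈ S', ⟪rowv A i, v⟫ ^ 2 ≤ ∑ i ∈ S, ⟪rowv A i, v⟫ ^ 2 :=
      Finset.sum_le_sum_of_subset_of_nonneg hS' (fun i _ _ => sq_nonneg _)
    rw [div_pow, Real.sq_sqrt hMpos.le, div_le_iff₀ hMpos]
    calc s ^ 2 ≤ (M : ℝ) * ∑ i ∈ S', ⟪rowv A i, v⟫ ^ 2 := h1
      _ ≤ (M : ℝ) * ∑ i ∈ S, ⟪rowv A i, v⟫ ^ 2 := mul_le_mul_of_nonneg_left h2 hMpos.le
      _ = _ := mul_comm _ _
  have hpos : 0 < s / Real.sqrt M := div_pos hs (Real.sqrt_pos.2 hMpos)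
  have hne : Nonempty {S : Finset (Fin (2 * M - 1)) //
      (A.submatrix (fun i : (Sᶜ : Finset (Fin (2 * M - 1))) => (i : Fin (2 * M - 1))) id).rank < M} := by
    refine ⟨⟨Finset.univ, ?_⟩⟩
    refine lt_of_le_of_lt (Matrix.rank_le_card_height _) ?_
    rw [Fintype.card_coe, Finset.card_compl, Finset.card_univ]
    omega
  apply le_ciInf
  rintro ⟨S, hS⟩
  have hSc : (Sᶜ).card < M := by
    by_contra hcon
    push Not at hcon
    set B := A.submatrix (fun i : (Sᶜ : Finset (Fin (2 * M - 1))) => (i : Fin (2 * M - 1))) id with hB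
    have hker : LinearMap.ker B.mulVecLin ≠ ⊥ := by
      intro h0
      have h1 := LinearMap.finrank_range_add_finrank_ker B.mulVecLin
      rw [h0, finrank_bot] at h1
      have h2 : B.rank = Module.finrank ℝ (LinearMap.range B.mulVecLin) := rfl
      rw [← h2] at h1
      simp at h1
      omega
    obtain ⟨x, hx, hx0⟩ := Submodule.exists_mem_ne_zero_of_ne_bot hker
    set v0 : EuclideanSpace ℝ (Fin M) := WithLp.toLp 2 x with hv0
    have hv00 : v0 ≠ 0 := by
      intro h0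
      apply hx0
      have := congrArg WithLp.ofLp h0
      simpa [hv0] using this
    have hn : 0 < ‖v0‖ := norm_pos_iff.2 hv00
    have h3 := key Sᶜ hcon ((‖v0‖⁻¹ : ℝ) • v0)
      (by rw [norm_smul, norm_inv, norm_norm, inv_mul_cancel₀ hn.ne'])
    have h4 : ∑ i ∈ Sᶜ, ⟪rowv A i, (‖v0‖⁻¹ : ℝ) • v0⟫ ^ 2 = 0 := by
      apply Finset.sum_eq_zero
      intro i hi
      have h5 : ⟪rowv A i, v0⟫ = 0 := by
        have h6 := congrFun (LinearMap.mem_ker.1 hx) ⟨i, hi⟩
        rw [Matrix.mulVecLin_apply] at h6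
        simp only [Matrix.mulVec, dotProduct, hB, Matrix.submatrix_apply, id, Pi.zero_apply] at h6
        rw [← h6]
        simp only [rowv, PiLp.inner_apply, hv0]
        apply Finset.sum_congr rfl
        intro j _
        simp [mul_comm]
      rw [real_inner_smul_right, h5, mul_zero]
      norm_num
    rw [h4] at h3
    have := pow_pos hpos 2
    linarith
  have hSM : M ≤ S.card := by
    rw [Finset.card_compl, Fintype.card_fin] at hSc
    omega
  refine le_sing _ M (by simp) hM1 _ ?_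
  intro v hv
  have h1 := key S hSM v hv
  rw [← sq_norm_submatrix] at h1
  exact (sq_le_sq₀ hpos.le (norm_nonneg _)).1 h1

end R967.PR
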