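import Pool.Agent.R967.PR.Dist

set_option autoImplicit false

open MeasureTheory ProbabilityTheory Set Filter Topology
open scoped ENNReal NNReal RealInnerProductSpace

namespace R967.PR

variable {E : Type*} [NormedAddCommGroup E] [InnerProductSpace ℝ E] [FiniteDimensional ℝ E]
  [MeasurableSpace E] [BorelSpace E]
variable {J : Type*} [Fintype J] [DecidableEq J]

/-- the square root of the ratio norm / distance -/
noncomputable def uu (i : J) (T : Finset J) (b : J → E) : ℝ≥0∞ :=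
  (‖b i‖ₑ * (Dst (b i) b T)⁻¹) ^ ((1 : ℝ) / 2)

lemma measurable_uu (i : J) (T : Finset J) : Measurable fun b : J → E => uu i T b := by
  unfold uu
  have h := measurable_Dst' (E := E) T i
  fun_prop

/-- the bound for one ratio -/
noncomputable def I0 (M : ℕ) : ℝ≥0∞ := (M : ℝ≥0∞) ^ ((1 : ℝ) / 4) * cneg ^ ((3 : ℝ) / 4)

lemma lintegral_uu_mul (i : J) (T : Finset J) (hi : i ∉ T) (hT : T.card < Module.finrank ℝ E)
    (g : (J → E) → ℝ≥0∞) (hg : Measurable g) (hgi : ∀ b x, g (Function.update b i x) = g b) :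
    ∫⁻ b, uu i T b * g b ∂(Measure.pi fun _ : J => stdGaussian E)
      ≤ I0 (Module.finrank ℝ E) * ∫⁻ b, g b ∂(Measure.pi fun _ : J => stdGaussian E) := by
  have hmm : Measurable fun b : J → E => uu i T b * g b := (measurable_uu i T).mul hg
  rw [← lintegral_update (stdGaussian E) _ hmm i, ← lintegral_const_mul _ hg]
  apply lintegral_mono
  intro b
  obtain ⟨n, hn, hbn⟩ := exists_normal b T hT
  calc ∫⁻ x, uu i T (Function.update b i x) * g (Function.update b i x) ∂(stdGaussian E)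
      ≤ ∫⁻ x, (‖x‖ₑ * ‖⟪x, n⟫‖ₑ⁻¹) ^ ((1 : ℝ) / 2) * g b ∂(stdGaussian E) := by
        apply lintegral_mono
        intro x
        beta_reduce
        rw [hgi]
        unfold uu
        rw [Function.update_self, Dst_update x b T i hi x]
        gcongr
        exact le_Dst x b T n hn hbn
    _ = (∫⁻ x, (‖x‖ₑ * ‖⟪x, n⟫‖ₑ⁻¹) ^ ((1 : ℝ) / 2) ∂(stdGaussian E)) * g b :=
        lintegral_mul_const _ (by fun_prop)
    _ ≤ I0 (Module.finrank ℝ E) * g b := by
        gcongr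
        exact ratio_moment n hn

lemma lintegral_uu2 (i j : J) (hij : i ≠ j) (T : Finset J) (hi : i ∉ T) (hj : j ∉ T)
    (hT : T.card < Module.finrank ℝ E) :
    ∫⁻ b, uu i T b * uu j T b ∂(Measure.pi fun _ : J => stdGaussian E)
      ≤ I0 (Module.finrank ℝ E) * I0 (Module.finrank ℝ E) := by
  refine (lintegral_uu_mul i T hi hT (fun b => uu j T b) (measurable_uu j T) ?_).trans ?_
  · intro b x
    unfold uu
    rw [Function.update_of_ne hij.symm, Dst_update _ b T i hi x]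
  · gcongr
    have h := lintegral_uu_mul j T hj hT (fun _ : J → E => 1) measurable_const (fun _ _ => rfl)
    simpa using h

/-- the pair estimate -/
lemma pair_est (b : J → E) (T T' : Finset J)
    (h : ∀ c : J → ℝ, ∑ j ∈ T, c j • b j = 0 → ∀ j ∈ T, c j = 0)
    (hT : T.card + 1 = Module.finrank ℝ E) (i j : J) (hi : i ∈ T') (hj : j ∈ T')
    (hDi : Dst (b i) b T ≠ 0) (hDj : Dst (b j) b T ≠ 0)
    (n n' : E) (hn : ‖n‖ = 1) (hn' : ‖n'‖ = 1) (hb : ∀ j ∈ T, ⟪b j, n⟫ = 0)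
    (hb' : ∀ j ∈ T', ⟪b j, n'⟫ = 0) (d : ℝ) :
    stdGaussian E ({x | |⟪x, n⟫| < d} ∩ {x | |⟪x, n'⟫| < d})
      ≤ gaussianReal 0 1 {y : ℝ | |y| < d} * ENNReal.ofReal (2 * d) * (uu i T b * uu j T b) := by
  rcases le_or_gt d 0 with hd0 | hd
  · have : ({x : E | |⟪x, n⟫| < d} ∩ {x | |⟪x, n'⟫| < d}) = ∅ := by
      ext x
      simp only [mem_inter_iff, mem_ofPred_eq, mem_empty_iff_false, iff_false, not_and]
      intro h1
      exact absurd (lt_of_lt_of_le h1 hd0) (not_lt.2 (abs_nonneg _))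
    rw [this, measure_empty]
    exact bot_le
  set ρ : ℝ := ⟪n, n'⟫ with hρ
  set w : E := n' - ρ • n with hw
  set κ : ℝ := ‖w‖ with hκ
  have hnn : ⟪n, n⟫ = (1 : ℝ) := by rw [real_inner_self_eq_norm_sq, hn, one_pow]
  have hnn' : ⟪n', n'⟫ = (1 : ℝ) := by rw [real_inner_self_eq_norm_sq, hn', one_pow]
  have hcomm : ⟪n', n⟫ = ρ := by rw [real_inner_comm]
  have hκ2 : κ ^ 2 = 1 - ρ ^ 2 := by
    rw [hκ, ← real_inner_self_eq_norm_sq, hw]
    simp only [inner_sub_left, inner_sub_right, real_inner_smul_left, real_inner_smul_right, hnn,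
      hnn', hcomm, ← hρ]
    ring
  have hκ3 : ‖n - ρ • n'‖ = κ := by
    have : ‖n - ρ • n'‖ ^ 2 = κ ^ 2 := by
      rw [hκ2, ← real_inner_self_eq_norm_sq]
      simp only [inner_sub_left, inner_sub_right, real_inner_smul_left, real_inner_smul_right, hnn,
        hnn', hcomm, ← hρ]
      ring
    exact (sq_eq_sq₀ (norm_nonneg _) (norm_nonneg _)).1 this
  have hρ1 : |ρ| ≤ 1 := by
    have := abs_real_inner_le_norm n n'
    rwa [hn, hn', one_mul] at this
  have hwn : ⟪n, w⟫ = 0 := by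
    rw [hw, inner_sub_right, real_inner_smul_right, hnn, ← hρ]; ring
  -- the distances
  have hD : ∀ k ∈ T', Dst (b k) b T ≤ ‖b k‖ₑ * ENNReal.ofReal κ := by
    intro k hk
    refine (Dst_eq (b k) b T h hT n hn hb).trans ?_
    have e : ⟪b k, n⟫ = ⟪b k, n - ρ • n'⟫ := by
      rw [inner_sub_right, real_inner_smul_right, hb' k hk]; ring
    rw [e, ← ofReal_norm, ← ofReal_norm, ← ENNReal.ofReal_mul (norm_nonneg _)]
    apply ENNReal.ofReal_le_ofReal
    refine (norm_inner_le_norm _ _).trans ?_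
    rw [hκ3]
  have hκ0 : 0 < κ := by
    rcases (norm_nonneg w).lt_or_eq with h1 | h1
    · exact h1
    · exfalso
      apply hDi
      have := hD i hi
      rw [hκ, ← h1, ENNReal.ofReal_zero, mul_zero] at this
      exact le_antisymm this bot_le
  have hrat : ∀ k ∈ T', Dst (b k) b T ≠ 0 → (ENNReal.ofReal κ)⁻¹ ≤ ‖b k‖ₑ * (Dst (b k) b T)⁻¹ := by
    intro k hk hDk
    have h1 := hD k hk
    have hb0 : ‖b k‖ₑ ≠ 0 := by
      intro h0
      rw [h0, zero_mul] at h1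
      exact hDk (le_antisymm h1 bot_le)
    have hbt : ‖b k‖ₑ ≠ ⊤ := by simp
    have h2 : (‖b k‖ₑ * ENNReal.ofReal κ)⁻¹ ≤ (Dst (b k) b T)⁻¹ := ENNReal.inv_le_inv.2 h1
    rw [ENNReal.mul_inv (Or.inl hb0) (Or.inl hbt)] at h2
    calc (ENNReal.ofReal κ)⁻¹ = ‖b k‖ₑ * (‖b k‖ₑ⁻¹ * (ENNReal.ofReal κ)⁻¹) := by
          rw [← mul_assoc, ENNReal.mul_inv_cancel hb0 hbt, one_mul]
      _ ≤ _ := by gcongr
  have hz : (ENNReal.ofReal κ)⁻¹ ≤ uu i T b * uu j T b := by
    have h1 : (ENNReal.ofReal κ)⁻¹ = ((ENNReal.ofReal κ)⁻¹) ^ ((1 : ℝ) / 2)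
        * ((ENNReal.ofReal κ)⁻¹) ^ ((1 : ℝ) / 2) := by
      rw [← ENNReal.rpow_add_of_nonneg _ _ (by norm_num) (by norm_num)]
      norm_num
    rw [h1]
    unfold uu
    gcongr
    · exact hrat i hi hDi
    · exact hrat j hj hDj
  -- the orthogonal direction
  set m : E := κ⁻¹ • w with hm
  have hm1 : ‖m‖ = 1 := by
    rw [hm, norm_smul, norm_inv, Real.norm_eq_abs, abs_of_pos hκ0, ← hκ, inv_mul_cancel₀ hκ0.ne']
  have hnm : ⟪n, m⟫ = 0 := by rw [hm, real_inner_smul_right, hwn, mul_zero]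
  calc stdGaussian E ({x | |⟪x, n⟫| < d} ∩ {x | |⟪x, n'⟫| < d})
      ≤ stdGaussian E {x | |⟪x, n⟫| < d ∧ ‖⟪x, m⟫‖ₑ ≤ ENNReal.ofReal (2 * d) * (ENNReal.ofReal κ)⁻¹} := by
        apply measure_mono
        rintro x ⟨hx1, hx2⟩
        refine ⟨hx1, ?_⟩
        simp only [mem_ofPred_eq] at hx1 hx2
        have e : ⟪x, m⟫ = κ⁻¹ * (⟪x, n'⟫ - ρ * ⟪x, n⟫) := by
          rw [hm, real_inner_smul_right, hw, inner_sub_right, real_inner_smul_right]
        rw [e, ← ENNReal.ofReal_inv_of_pos hκ0, ← ENNReal.ofReal_mul (by positivity),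
          ← ofReal_norm]
        apply ENNReal.ofReal_le_ofReal
        rw [norm_mul, Real.norm_eq_abs, abs_of_pos (inv_pos.2 hκ0), mul_comm (2 * d)]
        apply mul_le_mul_of_nonneg_left _ (inv_pos.2 hκ0).le
        rw [Real.norm_eq_abs]
        calc |⟪x, n'⟫ - ρ * ⟪x, n⟫| ≤ |⟪x, n'⟫| + |ρ * ⟪x, n⟫| := abs_sub _ _
          _ ≤ d + 1 * d := by
            rw [abs_mul]
            gcongr
          _ = 2 * d := by ring
    _ ≤ gaussianReal 0 1 {y : ℝ | |y| < d} * (ENNReal.ofReal (2 * d) * (ENNReal.ofReal κ)⁻¹) :=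
        proj_pair n m hn hm1 hnm d _
    _ ≤ _ := by
        rw [← mul_assoc]
        gcongr

/-- the second moment inequality for a union of events -/
lemma second_moment {X : Type*} [MeasurableSpace X] (μ : Measure X) [IsProbabilityMeasure μ]
    {α : Type*} (s : Finset α) (A : α → Set X) (hA : ∀ t, MeasurableSet (A t)) (p : ℝ≥0∞)
    (hp : ∀ t ∈ s, μ (A t) = p) :
    ((s.card : ℝ≥0∞) * p) ^ 2 ≤ (∑ t ∈ s, ∑ t' ∈ s, μ (A t ∩ A t')) * μ (⋃ t ∈ s, A t) := by
  classical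
  set N : X → ℝ≥0∞ := fun x => ∑ t ∈ s, (A t).indicator 1 x with hN
  set F : Set X := ⋃ t ∈ s, A t with hF
  have hFm : MeasurableSet F := Finset.measurableSet_biUnion s (fun t _ => hA t)
  have hNm : Measurable N := Finset.measurable_sum _ (fun t _ => measurable_one.indicator (hA t))
  have h1 : ∫⁻ x, N x ∂μ = (s.card : ℝ≥0∞) * p := by
    rw [hN, lintegral_finsetSum _ (fun t _ => measurable_one.indicator (hA t))]
    rw [Finset.sum_congr rfl (fun t ht => by rw [lintegral_indicator_one (hA t), hp t ht])]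
    simp
  have h2 : ∫⁻ x, N x ^ (2 : ℝ) ∂μ = ∑ t ∈ s, ∑ t' ∈ s, μ (A t ∩ A t') := by
    have e : ∀ x, N x ^ (2 : ℝ) = ∑ t ∈ s, ∑ t' ∈ s, (A t ∩ A t').indicator (1 : X → ℝ≥0∞) x := by
      intro x
      rw [show (2 : ℝ) = ((2 : ℕ) : ℝ) by norm_num, ENNReal.rpow_natCast, sq, hN]
      simp only
      rw [Finset.sum_mul_sum]
      apply Finset.sum_congr rfl; intro t _
      apply Finset.sum_congr rfl; intro t' _
      rw [inter_indicator_one]; rfl
    simp_rw [e]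
    rw [lintegral_finsetSum _ (fun t _ => Finset.measurable_sum _
      (fun t' _ => measurable_one.indicator ((hA t).inter (hA t'))))]
    apply Finset.sum_congr rfl; intro t _
    rw [lintegral_finsetSum _ (fun t' _ => measurable_one.indicator ((hA t).inter (hA t')))]
    apply Finset.sum_congr rfl; intro t' _
    rw [lintegral_indicator_one ((hA t).inter (hA t'))]
  have h3 : ∫⁻ x, (F.indicator (1 : X → ℝ≥0∞) x) ^ (2 : ℝ) ∂μ = μ F := by
    rw [← lintegral_indicator_one hFm]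
    apply lintegral_congr; intro x
    by_cases hx : x ∈ F
    · simp [indicator_of_mem hx]
    · simp [indicator_of_notMem hx]
  have h4 := ENNReal.lintegral_mul_le_Lp_mul_Lq μ (Real.HolderConjugate.two_two)
    (f := N) (g := F.indicator (1 : X → ℝ≥0∞)) hNm.aemeasurable (measurable_one.indicator hFm).aemeasurable
  have h5 : ∫⁻ x, (N * F.indicator (1 : X → ℝ≥0∞)) x ∂μ = ∫⁻ x, N x ∂μ := by
    apply lintegral_congr; intro x
    rw [Pi.mul_apply]
    by_cases hx : x ∈ F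
    · simp [indicator_of_mem hx]
    · rw [indicator_of_notMem hx, mul_zero, hN]
      simp only
      symm
      apply Finset.sum_eq_zero
      intro t ht
      rw [indicator_of_notMem]
      intro h6
      exact hx (mem_iUnion₂.2 ⟨t, ht, h6⟩)
  rw [h5, h1, h2] at h4
  have h6 : (∫⁻ x, (F.indicator (1 : X → ℝ≥0∞)) x ^ (2 : ℝ) ∂μ) = μ F := h3
  rw [h6] at h4
  calc ((s.card : ℝ≥0∞) * p) ^ 2
      ≤ ((∑ t ∈ s, ∑ t' ∈ s, μ (A t ∩ A t')) ^ ((1 : ℝ) / 2) * (μ F) ^ ((1 : ℝ) / 2)) ^ 2 := by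
        gcongr
    _ = _ := by
        rw [mul_pow, ← ENNReal.rpow_natCast, ← ENNReal.rpow_natCast, ← ENNReal.rpow_mul,
          ← ENNReal.rpow_mul]
        norm_num

/-- Bernoulli -/
lemma bern (q : ℝ≥0∞) (hq : q ≤ 1) (r : ℕ) : (1 - q) ^ r * ((r : ℝ≥0∞) * q) ≤ 1 := by
  have hq' : q ≠ ⊤ := ne_top_of_le_ne_top ENNReal.one_ne_top hq
  lift q to ℝ≥0 using hq'
  have hq1 : q ≤ 1 := by exact_mod_cast hq
  have h : ((1 - q) ^ r * ((r : ℝ≥0) * q) : ℝ≥0) ≤ 1 := by
    rw [← NNReal.coe_le_coe]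
    push_cast [NNReal.coe_sub hq1]
    have hq2 : (q : ℝ) ≤ 1 := by exact_mod_cast hq1
    have hq0 : (0 : ℝ) ≤ q := q.2
    have h1 : 1 + (r : ℝ) * q ≤ (1 + (q : ℝ)) ^ r := one_add_mul_le_pow (by linarith) r
    have h2 : 0 ≤ (1 - (q : ℝ)) ^ r := pow_nonneg (by linarith) r
    calc (1 - (q : ℝ)) ^ r * (r * q) ≤ (1 - (q : ℝ)) ^ r * (1 + (q : ℝ)) ^ r := by
          apply mul_le_mul_of_nonneg_left _ h2; linarith
      _ = (1 - (q : ℝ) ^ 2) ^ r := by rw [← mul_pow]; ring_nf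
      _ ≤ 1 := pow_le_one₀ (by nlinarith) (by nlinarith)
  exact_mod_cast h

end R967.PR
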