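import Pool.Agent.R967.PR.Omega

set_option autoImplicit false

open MeasureTheory ProbabilityTheory Set Filter Topology
open scoped ENNReal NNReal RealInnerProductSpace

namespace R967.PR

/-- The law of a `(2M-1) × M` matrix with independent standard Gaussian entries. -/
noncomputable def gaussMat (M : ℕ) : Measure (Fin (2 * M - 1) → Fin M → ℝ) :=
  Measure.pi fun _ => Measure.pi fun _ => gaussianReal 0 1

instance (M : ℕ) : IsProbabilityMeasure (gaussMat M) := by
  unfold gaussMat; infer_instance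

/-- the law of the rows -/
lemma mp_rows (M : ℕ) : MeasurePreserving (fun A : Fin (2 * M - 1) → Fin M → ℝ => rowv (Matrix.of A))
    (gaussMat M) (Measure.pi fun _ : Fin (2 * M - 1) => stdGaussian (EuclideanSpace ℝ (Fin M))) := by
  have h : ∀ _ : Fin (2 * M - 1), MeasurePreserving (WithLp.toLp 2 : (Fin M → ℝ) → EuclideanSpace ℝ (Fin M))
      (Measure.pi fun _ => gaussianReal 0 1) (stdGaussian (EuclideanSpace ℝ (Fin M))) :=
    fun _ => ⟨by fun_prop, map_pi_eq_stdGaussian⟩
  exact measurePreserving_pi _ _ h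

/-- the union bound -/
lemma lower_prob (M : ℕ) (hM1 : 1 ≤ M) (s : ℝ) (hs : 0 < s) :
    gaussMat M {A | omega (Matrix.of A) < s / Real.sqrt M}
      ≤ ((2 * M - 1).choose M : ℝ≥0∞) * ((M : ℝ≥0∞) * ENNReal.ofReal s) := by
  classical
  set P := (Measure.pi fun _ : Fin (2 * M - 1) => stdGaussian (EuclideanSpace ℝ (Fin M))) with hP
  set 𝒮 := (Finset.univ : Finset (Fin (2 * M - 1))).powersetCard M with h𝒮
  set U : Set (Fin (2 * M - 1) → EuclideanSpace ℝ (Fin M)) :=
    ⋃ S ∈ 𝒮, ⋃ i ∈ S, {w | Dst (w i) w (S.erase i) ≤ ENNReal.ofReal s} with hU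
  have hsub : {A : Fin (2 * M - 1) → Fin M → ℝ | omega (Matrix.of A) < s / Real.sqrt M}
      ⊆ (fun A => rowv (Matrix.of A)) ⁻¹' U := by
    intro A hA
    by_contra hcon
    apply absurd (le_omega hM1 (Matrix.of A) s hs ?_) (not_le.2 hA)
    intro S hS i hi
    by_contra h1
    push Not at h1
    apply hcon
    rw [mem_preimage, hU, mem_iUnion₂]
    refine ⟨S, by rw [h𝒮, Finset.mem_powersetCard]; exact ⟨Finset.subset_univ _, hS⟩, ?_⟩
    rw [mem_iUnion₂]
    exact ⟨i, hi, h1⟩
  calc gaussMat M {A | omega (Matrix.of A) < s / Real.sqrt M}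
      ≤ gaussMat M ((fun A => rowv (Matrix.of A)) ⁻¹' U) := measure_mono hsub
    _ ≤ ((gaussMat M).map (fun A => rowv (Matrix.of A))) U :=
        Measure.le_map_apply (mp_rows M).measurable.aemeasurable U
    _ = P U := by rw [(mp_rows M).map_eq]
    _ ≤ ∑ S ∈ 𝒮, P (⋃ i ∈ S, {w | Dst (w i) w (S.erase i) ≤ ENNReal.ofReal s}) :=
        measure_biUnion_finset_le _ _
    _ ≤ ∑ S ∈ 𝒮, ((M : ℝ≥0∞) * ENNReal.ofReal s) := by
        apply Finset.sum_le_sum
        intro S hS
        have hc : S.card = M := (Finset.mem_powersetCard.1 hS).2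
        calc P (⋃ i ∈ S, {w | Dst (w i) w (S.erase i) ≤ ENNReal.ofReal s})
            ≤ ∑ i ∈ S, P {w | Dst (w i) w (S.erase i) ≤ ENNReal.ofReal s} :=
              measure_biUnion_finset_le _ _
          _ ≤ ∑ i ∈ S, ENNReal.ofReal s := by
              apply Finset.sum_le_sum
              intro i hi
              apply prob_Dst
              · exact Finset.notMem_erase i S
              · rw [Finset.card_erase_of_mem hi, hc]; simp; omega
          _ = (M : ℝ≥0∞) * ENNReal.ofReal s := by rw [Finset.sum_const, nsmul_eq_mul, hc]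
    _ = _ := by
        rw [Finset.sum_const, nsmul_eq_mul, h𝒮, Finset.card_powersetCard, Finset.card_univ,
          Fintype.card_fin]

/-- the bad set of row configurations -/
def BadSet (ι : Type*) (M : ℕ) (d : ℝ) : Set (ι → EuclideanSpace ℝ (Fin M)) :=
  {w | ∀ S : Finset ι, S.card = M → ∀ v : EuclideanSpace ℝ (Fin M), ‖v‖ = 1 →
    d ^ 2 ≤ ∑ i ∈ S, ⟪w i, v⟫ ^ 2}

lemma isClosed_bad (ι : Type*) (M : ℕ) (d : ℝ) : IsClosed (BadSet ι M d) := by
  unfold BadSet
  simp only [ofPred_forall]
  refine isClosed_iInter fun S => isClosed_iInter fun _ => isClosed_iInter fun v =>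
    isClosed_iInter fun _ => ?_
  exact isClosed_le continuous_const (by fun_prop)

lemma upper_prob (M r : ℕ) (hM2 : 2 ≤ M) (hr : r ≤ M) (d : ℝ) (hd : 0 ≤ d) (p K : ℝ≥0∞)
    (hp : p = gaussianReal 0 1 {y : ℝ | |y| < d})
    (hK : K = ((2 * M - 1 - r).choose (M - 1) : ℝ≥0∞)) :
    gaussMat M {A | d < omega (Matrix.of A)} * ((r : ℝ≥0∞) * (K * p) ^ 2)
      ≤ K * (K * (p * ENNReal.ofReal (2 * d) * (I0 M * I0 M))
          + ((M - 1) * (2 * M - 1 - r) : ℕ) * p) := by
  classical
  set P := (Measure.pi fun _ : Fin (2 * M - 1) => stdGaussian (EuclideanSpace ℝ (Fin M))) with hP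
  set q : Fin (2 * M - 1) → Prop := fun i => (i : ℕ) < r with hq
  have hcR : Fintype.card {i // q i} = r := by
    rw [Fintype.card_subtype]
    have : (Finset.univ.filter fun i : Fin (2 * M - 1) => q i)
        = Finset.univ.filter fun i : Fin (2 * M - 1) => (i : ℕ) < r := rfl
    rw [this, Fin.card_filter_val_lt]
    omega
  have hcJ : Fintype.card {i // ¬ q i} = 2 * M - 1 - r := by
    rw [Fintype.card_subtype_compl, hcR, Fintype.card_fin]
  have hJne : Nonempty {i // ¬ q i} := by
    apply Fintype.card_pos_iff.1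
    rw [hcJ]; omega
  have hBm : MeasurableSet (BadSet (Fin (2 * M - 1)) M d) := (isClosed_bad _ M d).measurableSet
  have hmp := measurePreserving_piEquivPiSubtypeProd
    (fun _ : Fin (2 * M - 1) => stdGaussian (EuclideanSpace ℝ (Fin M))) q
  set e := MeasurableEquiv.piEquivPiSubtypeProd (fun _ : Fin (2 * M - 1) => EuclideanSpace ℝ (Fin M)) q
    with he
  have h1 : gaussMat M {A | d < omega (Matrix.of A)} ≤ P (BadSet (Fin (2 * M - 1)) M d) := by
    calc gaussMat M {A | d < omega (Matrix.of A)}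
        ≤ gaussMat M ((fun A => rowv (Matrix.of A)) ⁻¹' (BadSet (Fin (2 * M - 1)) M d)) := by
          apply measure_mono
          intro A hA S hS v hv
          have h2 := omega_le (by omega) (Matrix.of A) S hS v hv
          have h3 : d ^ 2 ≤ omega (Matrix.of A) ^ 2 := pow_le_pow_left₀ hd (le_of_lt hA) 2
          exact h3.trans h2
      _ = P (BadSet (Fin (2 * M - 1)) M d) := (mp_rows M).measure_preimage hBm.nullMeasurableSet
  have h2 : P (BadSet (Fin (2 * M - 1)) M d)
      = ((Measure.pi fun _ : {i // q i} => stdGaussian (EuclideanSpace ℝ (Fin M))).prod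
        (Measure.pi fun _ : {i // ¬ q i} => stdGaussian (EuclideanSpace ℝ (Fin M))))
          (e.symm ⁻¹' (BadSet (Fin (2 * M - 1)) M d)) := by
    rw [(hmp.symm e).measure_preimage hBm.nullMeasurableSet]
  have h3 := main_est (R := {i // q i}) (J := {i // ¬ q i}) M (by simp) hM2 d
    (e.symm ⁻¹' (BadSet (Fin (2 * M - 1)) M d)) (e.symm.measurable hBm) ?_ p K hp
    (by rw [hcJ]; exact hK)
  · rw [hcR, hcJ] at h3
    rw [← h2] at h3
    exact (mul_le_mul_left h1 _).trans h3
  · intro a b hab k T hT v hv hbv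
    set S : Finset (Fin (2 * M - 1)) := insert (k : Fin (2 * M - 1)) (T.map (Function.Embedding.subtype _))
      with hS
    have hkT : (k : Fin (2 * M - 1)) ∉ T.map (Function.Embedding.subtype _) := by
      intro h4
      rw [Finset.mem_map] at h4
      obtain ⟨j, _, hj⟩ := h4
      simp only [Function.Embedding.subtype_apply] at hj
      exact j.2 (hj ▸ k.2)
    have hSc : S.card = M := by
      rw [hS, Finset.card_insert_of_notMem hkT, Finset.card_map, hT]; omega
    have h5 := hab S hSc v hv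
    rw [hS, Finset.sum_insert hkT, Finset.sum_map] at h5
    have e1 : (e.symm (a, b)) (k : Fin (2 * M - 1)) = a k := by
      have : e.symm (a, b) = (Equiv.piEquivPiSubtypeProd q _).symm (a, b) := rfl
      rw [this, Equiv.piEquivPiSubtypeProd_symm_apply]
      simp only
      rw [dif_pos k.2]
    have e2 : ∀ j : {i // ¬ q i}, (e.symm (a, b)) (j : Fin (2 * M - 1)) = b j := by
      intro j
      have : e.symm (a, b) = (Equiv.piEquivPiSubtypeProd q _).symm (a, b) := rfl
      rw [this, Equiv.piEquivPiSubtypeProd_symm_apply]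
      simp only
      rw [dif_neg j.2]
    rw [e1, Finset.sum_eq_zero, add_zero] at h5
    · rw [← sq_abs ⟪a k, v⟫] at h5
      exact (sq_le_sq₀ hd (abs_nonneg _)).1 h5
    · intro j hj
      simp only [Function.Embedding.subtype_apply]
      rw [e2 j, hbv j hj]; norm_num

end R967.PR
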