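import Pool.Agent.R967.PR.Prob

set_option autoImplicit false

open MeasureTheory ProbabilityTheory Set Filter Topology
open scoped ENNReal NNReal RealInnerProductSpace

namespace R967.PR

/-- the constant -/
noncomputable def cc : ℝ := (cneg ^ ((3 : ℝ) / 2)).toReal

lemma I0_sq (M : ℕ) : I0 M * I0 M = ENNReal.ofReal (Real.sqrt M * cc) := by
  have hc : cneg ^ ((3 : ℝ) / 2) ≠ ⊤ := ENNReal.rpow_ne_top_of_nonneg (by norm_num) cneg_lt.ne
  unfold I0 cc
  rw [ENNReal.ofReal_mul (Real.sqrt_nonneg _), ENNReal.ofReal_toReal hc, Real.sqrt_eq_rpow,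
    ← ENNReal.ofReal_rpow_of_nonneg (by positivity) (by norm_num), ENNReal.ofReal_natCast]
  have h1 : (M : ℝ≥0∞) ^ ((1 : ℝ) / 2) = (M : ℝ≥0∞) ^ ((1 : ℝ) / 4) * (M : ℝ≥0∞) ^ ((1 : ℝ) / 4) := by
    rw [← ENNReal.rpow_add_of_nonneg _ _ (by norm_num) (by norm_num)]; norm_num
  have h2 : cneg ^ ((3 : ℝ) / 2) = cneg ^ ((3 : ℝ) / 4) * cneg ^ ((3 : ℝ) / 4) := by
    rw [← ENNReal.rpow_add_of_nonneg _ _ (by norm_num) (by norm_num)]; norm_num
  rw [h1, h2]; ring

/-- the upper estimate, with real numbers -/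
lemma upper_real (M r : ℕ) (hM2 : 2 ≤ M) (hr : r ≤ M) (hr1 : 1 ≤ r) (d : ℝ) (hd : 0 < d)
    (hd1 : d ≤ 1) :
    gaussMat M {A | d < omega (Matrix.of A)} ≤ ENNReal.ofReal
      (10 * cc * Real.sqrt M / r
        + 10 * (M : ℝ) ^ 2 / (d * ((2 * M - 1 - r).choose (M - 1) : ℝ))) := by
  set p : ℝ≥0∞ := gaussianReal 0 1 {y : ℝ | |y| < d} with hp
  set k : ℕ := (2 * M - 1 - r).choose (M - 1) with hk
  have hk1 : 1 ≤ k := Nat.choose_pos (by omega)
  have h := upper_prob M r hM2 hr d hd.le p (k : ℝ≥0∞) hp rfl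
  have hplow : ENNReal.ofReal (d / 5) ≤ p := small_lower d hd.le hd1
  have hp0 : p ≠ 0 := by
    intro h0
    rw [h0] at hplow
    have := (ENNReal.ofReal_pos.2 (by positivity : 0 < d / 5)).ne'
    exact this (le_antisymm hplow bot_le)
  have hpt : p ≠ ⊤ := measure_ne_top _ _
  have hcc : 0 ≤ cc := ENNReal.toReal_nonneg
  set x : ℝ≥0∞ := gaussMat M {A | d < omega (Matrix.of A)} with hx
  have hxt : x ≠ ⊤ := measure_ne_top _ _
  rw [I0_sq] at h
  -- pass to real numbers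
  set N : ℕ := (M - 1) * (2 * M - 1 - r) with hN0
  have hreal : x.toReal * (r * ((k : ℝ) * p.toReal) ^ 2)
      ≤ k * (k * (p.toReal * (2 * d) * (Real.sqrt M * cc)) + (N : ℝ) * p.toReal) := by
    have t1 : (k : ℝ≥0∞) * (p * ENNReal.ofReal (2 * d) * ENNReal.ofReal (Real.sqrt M * cc)) ≠ ⊤ :=
      ENNReal.mul_ne_top (ENNReal.natCast_ne_top k) (ENNReal.mul_ne_top
        (ENNReal.mul_ne_top hpt ENNReal.ofReal_ne_top) ENNReal.ofReal_ne_top)
    have t2 : (N : ℝ≥0∞) * p ≠ ⊤ := ENNReal.mul_ne_top (ENNReal.natCast_ne_top N) hpt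
    have h1 := ENNReal.toReal_mono
      (ENNReal.mul_ne_top (ENNReal.natCast_ne_top k) (ENNReal.add_ne_top.2 ⟨t1, t2⟩)) h
    simp only [ENNReal.toReal_mul, ENNReal.toReal_pow, ENNReal.toReal_natCast,
      ENNReal.toReal_add t1 t2] at h1
    rw [ENNReal.toReal_ofReal (by positivity), ENNReal.toReal_ofReal (by positivity)] at h1
    exact h1
  have hpr : d / 5 ≤ p.toReal := by
    have := ENNReal.toReal_mono hpt hplow
    rwa [ENNReal.toReal_ofReal (by positivity)] at this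
  have hppos : 0 < p.toReal := lt_of_lt_of_le (by positivity) hpr
  have hkpos : (0 : ℝ) < k := by exact_mod_cast hk1
  have hrpos : (1 : ℝ) ≤ r := by exact_mod_cast hr1
  have hN : (N : ℝ) ≤ 2 * (M : ℝ) ^ 2 := by
    have : N ≤ M * (2 * M) := Nat.mul_le_mul (by omega) (by omega)
    have h2 : (N : ℝ) ≤ ((M * (2 * M) : ℕ) : ℝ) := by exact_mod_cast this
    push_cast at h2
    nlinarith
  -- cancel
  have h2 : x.toReal * (r * (k : ℝ) * p.toReal) ≤ k * (2 * d) * (Real.sqrt M * cc) + 2 * (M : ℝ) ^ 2 := by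
    have h3 : (x.toReal * (r * (k : ℝ) * p.toReal)) * (k * p.toReal)
        ≤ (k * (2 * d) * (Real.sqrt M * cc) + 2 * (M : ℝ) ^ 2) * (k * p.toReal) := by
      calc (x.toReal * (r * (k : ℝ) * p.toReal)) * (k * p.toReal)
          = x.toReal * (r * ((k : ℝ) * p.toReal) ^ 2) := by ring
        _ ≤ _ := hreal
        _ ≤ k * (k * (p.toReal * (2 * d) * (Real.sqrt M * cc)) + 2 * (M : ℝ) ^ 2 * p.toReal) := by
            gcongr
        _ = _ := by ring
    exact le_of_mul_le_mul_right h3 (by positivity)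
  have h4 : x.toReal * (r * (k : ℝ) * (d / 5)) ≤ k * (2 * d) * (Real.sqrt M * cc) + 2 * (M : ℝ) ^ 2 := by
    refine le_trans ?_ h2
    have : (0 : ℝ) ≤ x.toReal := ENNReal.toReal_nonneg
    gcongr
  have h5 : x.toReal ≤ 10 * cc * Real.sqrt M / r + 10 * (M : ℝ) ^ 2 / (d * (k : ℝ)) := by
    have hD : 0 < (r : ℝ) * k * (d / 5) := by positivity
    have h6 : x.toReal ≤ (k * (2 * d) * (Real.sqrt M * cc) + 2 * (M : ℝ) ^ 2) / (r * (k : ℝ) * (d / 5)) := by
      rwa [le_div_iff₀ hD]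
    refine h6.trans ?_
    rw [add_div]
    apply add_le_add
    · rw [div_le_div_iff₀ hD (by positivity)]
      apply le_of_eq; ring
    · calc 2 * (M : ℝ) ^ 2 / (r * (k : ℝ) * (d / 5)) ≤ 2 * (M : ℝ) ^ 2 / (1 * (k : ℝ) * (d / 5)) := by
            gcongr
        _ = 10 * (M : ℝ) ^ 2 / (d * (k : ℝ)) := by
            field_simp
            ring
  rw [← ENNReal.ofReal_toReal hxt]
  exact ENNReal.ofReal_le_ofReal h5

/-- binomial coefficients: removing `r` elements costs at most `4 ^ r` -/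
lemma choose_remove (M r : ℕ) (hM : 1 ≤ M) (hr : 2 * r ≤ M) :
    (2 * M - 1).choose (M - 1) ≤ 4 ^ r * (2 * M - 1 - r).choose (M - 1) := by
  induction r with
  | zero => simp
  | succ r ih =>
    have ih' := ih (by omega)
    refine ih'.trans ?_
    rw [pow_succ, mul_assoc]
    apply Nat.mul_le_mul_left
    set n := 2 * M - 1 - (r + 1) with hn
    have hn1 : 2 * M - 1 - r = n + 1 := by omega
    rw [hn1]
    -- (n+1).choose k * (n+1-k) = n.choose k * (n+1)
    have h3 : (n + 1).choose (M - 1) * (n + 1 - (M - 1)) = n.choose (M - 1) * (n + 1) := by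
      rw [Nat.choose_mul_succ_eq]
    have h4 : n + 1 ≤ 4 * (n + 1 - (M - 1)) := by omega
    have h5 : 0 < n + 1 - (M - 1) := by omega
    have h6 : (n + 1).choose (M - 1) * (n + 1 - (M - 1))
        ≤ (4 * n.choose (M - 1)) * (n + 1 - (M - 1)) := by
      rw [h3]
      calc n.choose (M - 1) * (n + 1) ≤ n.choose (M - 1) * (4 * (n + 1 - (M - 1))) :=
            Nat.mul_le_mul_left _ h4
        _ = _ := by ring
    exact Nat.le_of_mul_le_mul_right h6 h5

end R967.PR
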